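import Pool.Agent.Helper57.REC.Stmts6b

set_option autoImplicit false

/-! `st_ORD`: the ring of endomorphisms of a commutative motive of rank two. -/

open scoped Classical
open NumberField Polynomial

namespace Pool.Agent.Helper32.REC

open _root_.REC MU

/-- the coefficients of the characteristic polynomial in size two -/
theorem cp_two {R : Type} [CommRing R] [Nontrivial R] (A : Matrix (Fin 2) (Fin 2) R) :
    A.charpoly.coeff 1 = -(A 0 0 + A 1 1) ∧
      A.charpoly.coeff 0 = A 0 0 * A 1 1 - A 0 1 * A 1 0 := by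
  rw [Matrix.charpoly_fin_two, Matrix.trace_fin_two, Matrix.det_fin_two]
  constructor
  · simp [coeff_X, coeff_C]
  · simp

theorem dsc_coeff {R : Type} [CommRing R] [Nontrivial R] (A : Matrix (Fin 2) (Fin 2) R) :
    dsc A = A.charpoly.coeff 1 ^ 2 - 4 * A.charpoly.coeff 0 := by
  rw [(cp_two A).1, (cp_two A).2, dsc]
  ring

/-- regular elements exist at all `l` -/
theorem reg_all (hTRP : ST_TRP) {F : Type} [Field F] [NumberField F] {S : Finset ℕ}
    (hS : ∀ p ∈ S, p.Prime) {w : ℕ} {h : Fin 2 → ℕ} (M : Mot F S 2 w h)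
    (h0 : ∃ (l : ℕ) (_ : Fact l.Prime) (g : Gal F),
      dsc (M.ρ l g : Matrix (Fin 2) (Fin 2) ℤ_[l]) ≠ 0) (l : ℕ) [Fact l.Prime] :
    ∃ g : Gal F, dsc (M.ρ l g : Matrix (Fin 2) (Fin 2) ℤ_[l]) ≠ 0 := by
  by_contra hcon
  push Not at hcon
  obtain ⟨l₀, hl₀, g, hg⟩ := h0
  apply hg
  have key := hTRP F S hS 2 w h M Set.univ isOpen_univ
    (MvPolynomial.X 1 ^ 2 - 4 * MvPolynomial.X 0) l l₀ (fun σ _ => by
      have := hcon σ
      rw [dsc_coeff] at this
      simp only [map_sub, map_mul, map_pow, MvPolynomial.aeval_X, map_ofNat]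
      exact this) g (Set.mem_univ g)
  rw [dsc_coeff]
  simp only [map_sub, map_mul, map_pow, MvPolynomial.aeval_X, map_ofNat] at key
  exact key

/-- the commutant of a regular matrix -/
theorem commutant {K : Type} [Field K] (A y : Matrix (Fin 2) (Fin 2) K) (hA : dsc A ≠ 0)
    (h : y * A = A * y) : ∃ b : K, y 0 0 - y 1 1 = b * (A 0 0 - A 1 1) ∧ y 0 1 = b * A 0 1 ∧
      y 1 0 = b * A 1 0 := by
  have e00 := congrFun (congrFun h 0) 0
  have e01 := congrFun (congrFun h 0) 1
  have e10 := congrFun (congrFun h 1) 0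
  simp only [Matrix.mul_apply, Fin.sum_univ_two] at e00 e01 e10
  by_cases h1 : A 0 1 = 0
  · by_cases h2 : A 1 0 = 0
    · have h3 : A 0 0 - A 1 1 ≠ 0 := by
        intro h3
        apply hA
        rw [dsc, h1, h2, sub_eq_zero.mp h3]
        ring
      refine ⟨(y 0 0 - y 1 1) / (A 0 0 - A 1 1), by field_simp, ?_, ?_⟩
      · have : (A 0 0 - A 1 1) * y 0 1 = 0 := by
          rw [h1] at e01
          linear_combination -e01
        rw [(mul_eq_zero.mp this).resolve_left h3, h1, mul_zero]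
      · have : (A 0 0 - A 1 1) * y 1 0 = 0 := by
          rw [h2] at e10
          linear_combination e10
        rw [(mul_eq_zero.mp this).resolve_left h3, h2, mul_zero]
    · refine ⟨y 1 0 / A 1 0, ?_, ?_, by field_simp⟩
      · field_simp
        linear_combination -e10
      · field_simp
        linear_combination e00
  · refine ⟨y 0 1 / A 0 1, ?_, by field_simp, ?_⟩
    · field_simp
      linear_combination e01
    · field_simp
      linear_combination -e00

/-- primitive integral vectors -/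
theorem prim (v₁ v₂ v₃ : ℚ) (hv : ¬ (v₁ = 0 ∧ v₂ = 0 ∧ v₃ = 0)) :
    ∃ (x y z α β γ : ℤ) (r : ℚ), r ≠ 0 ∧ v₁ = r * x ∧ v₂ = r * y ∧ v₃ = r * z ∧
      α * x + β * y + γ * z = 1 := by
  -- clear denominators
  obtain ⟨D, hD0, X, Y, Z, hX, hY, hZ⟩ : ∃ D : ℤ, D ≠ 0 ∧ ∃ X Y Z : ℤ, (D : ℚ) * v₁ = X ∧
      (D : ℚ) * v₂ = Y ∧ (D : ℚ) * v₃ = Z := by
    refine ⟨v₁.den * v₂.den * v₃.den, by
      have := v₁.den_nz
      have := v₂.den_nz
      have := v₃.den_nz
      positivity, v₁.num * v₂.den * v₃.den, v₂.num * v₁.den * v₃.den, v₃.num * v₁.den * v₂.den,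
      ?_, ?_, ?_⟩
    · have := Rat.den_mul_eq_num v₁
      push_cast
      linear_combination (v₂.den : ℚ) * v₃.den * this
    · have := Rat.den_mul_eq_num v₂
      push_cast
      linear_combination (v₁.den : ℚ) * v₃.den * this
    · have := Rat.den_mul_eq_num v₃
      push_cast
      linear_combination (v₁.den : ℚ) * v₂.den * this
  have hDQ : (D : ℚ) ≠ 0 := by exact_mod_cast hD0
  obtain ⟨g, hg⟩ : ∃ g : ℤ, Ideal.span {X, Y, Z} = Ideal.span {g} :=
    ⟨_, (Submodule.IsPrincipal.span_singleton_generator (Ideal.span {X, Y, Z})).symm⟩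
  have hmem : ∀ t ∈ ({X, Y, Z} : Set ℤ), g ∣ t := by
    intro t ht
    rw [← Ideal.mem_span_singleton, ← hg]
    exact Ideal.subset_span ht
  obtain ⟨x, hx⟩ := hmem X (by simp)
  obtain ⟨y, hy⟩ := hmem Y (by simp)
  obtain ⟨z, hz⟩ := hmem Z (by simp)
  have hg0 : g ≠ 0 := by
    rintro rfl
    apply hv
    rw [zero_mul] at hx hy hz
    rw [hx] at hX
    rw [hy] at hY
    rw [hz] at hZ
    simp only [Int.cast_zero, mul_eq_zero, hDQ, false_or] at hX hY hZ
    exact ⟨hX, hY, hZ⟩
  have hgs : g ∈ Ideal.span {X, Y, Z} := by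
    rw [hg]
    exact Ideal.mem_span_singleton_self g
  rw [Ideal.mem_span_insert] at hgs
  obtain ⟨α, t, ht, hgt⟩ := hgs
  rw [Ideal.mem_span_pair] at ht
  obtain ⟨β, γ, hbc⟩ := ht
  refine ⟨x, y, z, α, β, γ, (g : ℚ) / D, div_ne_zero (by exact_mod_cast hg0) hDQ, ?_, ?_, ?_, ?_⟩
  · have : (X : ℚ) = g * x := by exact_mod_cast hx
    field_simp
    linear_combination hX + this
  · have : (Y : ℚ) = g * y := by exact_mod_cast hy
    field_simp
    linear_combination hY + this
  · have : (Z : ℚ) = g * z := by exact_mod_cast hz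
    field_simp
    linear_combination hZ + this
  · apply mul_left_cancel₀ hg0
    have e : g = α * X + (β * Y + γ * Z) := by rw [hbc]; exact hgt
    rw [hx, hy, hz] at e
    linear_combination -e

theorem comm_of {K : Type} [Field K] (A U W : Matrix (Fin 2) (Fin 2) K) (r : K) (hr : r ≠ 0)
    (h1 : U 0 0 - U 1 1 = r * (W 0 0 - W 1 1)) (h2 : U 0 1 = r * W 0 1) (h3 : U 1 0 = r * W 1 0)
    (h : U * A = A * U) : W * A = A * W := by
  have e00 := congrFun (congrFun h 0) 0
  have e01 := congrFun (congrFun h 0) 1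
  have e10 := congrFun (congrFun h 1) 0
  have e11 := congrFun (congrFun h 1) 1
  simp only [Matrix.mul_apply, Fin.sum_univ_two] at e00 e01 e10 e11
  ext i j
  apply mul_left_cancel₀ hr
  simp only [Matrix.mul_apply, Fin.sum_univ_two]
  fin_cases i <;> fin_cases j
  · simp only [Fin.zero_eta]
    linear_combination e00 - A 1 0 * h2 + A 0 1 * h3
  · simp only [Fin.zero_eta, Fin.mk_one]
    linear_combination e01 - A 0 1 * h1 - (A 1 1 - A 0 0) * h2
  · simp only [Fin.zero_eta, Fin.mk_one]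
    linear_combination e10 + A 1 0 * h1 - (A 0 0 - A 1 1) * h3
  · simp only [Fin.mk_one]
    linear_combination e11 - A 0 1 * h3 + A 1 0 * h2

theorem st_ORD (hTRP : ST_TRP) : ST_ORD := by
  intro F _ _ S hS w h M hCm hTate
  obtain ⟨hcomm, hreg⟩ := hCm
  have hregl := fun (l : ℕ) [Fact l.Prime] => reg_all hTRP hS M hreg l
  -- over the fields
  have hinj : ∀ (l : ℕ) [Fact l.Prime], Function.Injective (algebraMap ℤ_[l] ℚ_[l]) :=
    fun l _ => FaithfulSMul.algebraMap_injective ℤ_[l] ℚ_[l]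
  have hrat : ∀ (l : ℕ) [Fact l.Prime] (g : Gal F) (i j : Fin 2), rat (M.ρ l) g i j =
      algebraMap ℤ_[l] ℚ_[l] ((M.ρ l g : Matrix (Fin 2) (Fin 2) ℤ_[l]) i j) :=
    fun l _ g i j => rfl
  have hratd : ∀ (l : ℕ) [Fact l.Prime] (g : Gal F), dsc (rat (M.ρ l) g) =
      algebraMap ℤ_[l] ℚ_[l] (dsc (M.ρ l g : Matrix (Fin 2) (Fin 2) ℤ_[l])) := by
    intro l _ g
    simp only [dsc, hrat, map_sub, map_add, map_mul, map_pow, map_ofNat]
  have hratc : ∀ (l : ℕ) [Fact l.Prime] (g g' : Gal F),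
      rat (M.ρ l) g * rat (M.ρ l) g' = rat (M.ρ l) g' * rat (M.ρ l) g := by
    intro l _ g g'
    have h1 := hcomm l g g'
    have h2 : ∀ a b : Gal F, rat (M.ρ l) a * rat (M.ρ l) b = rat (M.ρ l) (a * b) :=
      fun a b => (map_mul _ _ _).symm
    rw [h2, h2]
    ext i j
    rw [hrat, hrat, map_mul, map_mul, h1]
  -- a non scalar endomorphism
  obtain ⟨u, hu, hus⟩ : ∃ u : Matrix (Fin 2) (Fin 2) ℚ, Hm M M u ∧
      ¬ (u 0 0 - u 1 1 = 0 ∧ u 0 1 = 0 ∧ u 1 0 = 0) := by
    by_contra hcon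
    push Not at hcon
    obtain ⟨l, hl, g, hg⟩ := hreg
    have h1 := hTate l (rat (M.ρ l) g) (fun g' => hratc l g g')
    have h2 : ∀ y ∈ Submodule.span ℚ_[l] {z : Matrix (Fin 2) (Fin 2) ℚ_[l] |
        ∃ u : Matrix (Fin 2) (Fin 2) ℚ, Hm M M u ∧ z = u.map (algebraMap ℚ ℚ_[l])},
        y 0 0 - y 1 1 = 0 ∧ y 0 1 = 0 ∧ y 1 0 = 0 := by
      intro y hy
      induction hy using Submodule.span_induction with
      | mem z hz =>
        obtain ⟨u, hu, rfl⟩ := hz
        obtain ⟨h3, h4, h5⟩ := hcon u hu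
        refine ⟨?_, ?_, ?_⟩
        · rw [Matrix.map_apply, Matrix.map_apply, ← map_sub, h3, map_zero]
        · rw [Matrix.map_apply, h4, map_zero]
        · rw [Matrix.map_apply, h5, map_zero]
      | zero => simp
      | add a b _ _ ha hb =>
        refine ⟨?_, ?_, ?_⟩
        · simp only [Matrix.add_apply]
          linear_combination ha.1 + hb.1
        · simp only [Matrix.add_apply]
          linear_combination ha.2.1 + hb.2.1
        · simp only [Matrix.add_apply]
          linear_combination ha.2.2 + hb.2.2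
      | smul c a _ ha =>
        refine ⟨?_, ?_, ?_⟩
        · simp only [Matrix.smul_apply, smul_eq_mul]
          linear_combination c * ha.1
        · simp only [Matrix.smul_apply, smul_eq_mul]
          linear_combination c * ha.2.1
        · simp only [Matrix.smul_apply, smul_eq_mul]
          linear_combination c * ha.2.2
    obtain ⟨h3, h4, h5⟩ := h2 _ h1
    have h6 : dsc (rat (M.ρ l) g) = 0 := by
      rw [dsc]
      linear_combination (rat (M.ρ l) g 0 0 - rat (M.ρ l) g 1 1) * h3 +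
        4 * rat (M.ρ l) g 1 0 * h4
    rw [hratd] at h6
    exact hg (hinj l (by rw [h6, map_zero]))
  obtain ⟨x, y, z, α, β, γ, r, hr, h1, h2, h3, hbez⟩ := prim _ _ _ hus
  have hxyz : ¬ (x = 0 ∧ y = 0 ∧ z = 0) := by
    rintro ⟨rfl, rfl, rfl⟩
    simp at hbez
  refine ⟨!![x, y; z, 0], ?_, ?_⟩
  · -- the discriminant
    obtain ⟨l, hl, g, hg⟩ := hreg
    have hgK : dsc (rat (M.ρ l) g) ≠ 0 := by
      rw [hratd]
      exact fun h => hg (hinj l (by rw [h, map_zero]))
    obtain ⟨b, hb1, hb2, hb3⟩ := commutant (rat (M.ρ l) g) (u.map (algebraMap ℚ ℚ_[l])) hgK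
      (hu l g)
    intro hd
    have hd' : (x : ℚ) ^ 2 + 4 * (y * z) = 0 := by
      have : x ^ 2 + 4 * (y * z) = 0 := by
        simp [dsc] at hd
        linear_combination hd
      exact_mod_cast this
    have e1 : (u 0 0 - u 1 1) ^ 2 + 4 * (u 0 1 * u 1 0) = 0 := by
      rw [h1, h2, h3]
      linear_combination r ^ 2 * hd'
    have e2 : ((u.map (algebraMap ℚ ℚ_[l])) 0 0 - (u.map (algebraMap ℚ ℚ_[l])) 1 1) ^ 2 +
        4 * ((u.map (algebraMap ℚ ℚ_[l])) 0 1 * (u.map (algebraMap ℚ ℚ_[l])) 1 0) = 0 := by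
      simp only [Matrix.map_apply]
      have := congrArg (algebraMap ℚ ℚ_[l]) e1
      simp only [map_add, map_sub, map_mul, map_pow, map_ofNat, map_zero] at this
      exact this
    rw [hb1, hb2, hb3] at e2
    have e3 : b ^ 2 * dsc (rat (M.ρ l) g) = 0 := by
      rw [dsc]
      linear_combination e2
    have hb0 : b = 0 := by
      rcases mul_eq_zero.mp e3 with h | h
      · exact pow_eq_zero_iff two_ne_zero |>.mp h
      · exact absurd h hgK
    rw [hb0, zero_mul] at hb1 hb2 hb3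
    apply hus
    simp only [Matrix.map_apply] at hb1 hb2 hb3
    have hi := (algebraMap ℚ ℚ_[l]).injective
    refine ⟨hi ?_, hi ?_, hi ?_⟩
    · rw [map_sub, map_zero]
      exact hb1
    · rw [map_zero]
      exact hb2
    · rw [map_zero]
      exact hb3
  · intro l _
    obtain ⟨ωl, hωl⟩ : ∃ W : Matrix (Fin 2) (Fin 2) ℤ_[l], W = (!![x, y; z, 0] : Matrix (Fin 2) (Fin 2) ℤ).map (algebraMap ℤ ℤ_[l]) := ⟨_, rfl⟩
    rw [← hωl]
    have w00 : ωl 0 0 = (x : ℤ_[l]) := by rw [hωl]; simp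
    have w01 : ωl 0 1 = (y : ℤ_[l]) := by rw [hωl]; simp
    have w10 : ωl 1 0 = (z : ℤ_[l]) := by rw [hωl]; simp
    have w11 : ωl 1 1 = 0 := by rw [hωl]; simp
    set c : ℤ_[l] →+* ℚ_[l] := algebraMap ℤ_[l] ℚ_[l] with hc
    have hcI : Function.Injective c := hinj l
    have hcM : ∀ X Y : Matrix (Fin 2) (Fin 2) ℤ_[l], c.mapMatrix X = c.mapMatrix Y → X = Y := by
      intro X Y h
      ext i j
      exact hcI (congrFun (congrFun h i) j)
    have hcx : ∀ t : ℤ, c (t : ℤ_[l]) = ((t : ℚ) : ℚ_[l]) := by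
      intro t
      rw [map_intCast]
      norm_cast
    have hwK : ∀ g : Gal F, c.mapMatrix ωl * rat (M.ρ l) g = rat (M.ρ l) g * c.mapMatrix ωl := by
      intro g
      refine comm_of (rat (M.ρ l) g) (u.map (algebraMap ℚ ℚ_[l])) (c.mapMatrix ωl)
        (algebraMap ℚ ℚ_[l] r) (by simpa using hr) ?_ ?_ ?_ (hu l g)
      · change algebraMap ℚ ℚ_[l] (u 0 0) - algebraMap ℚ ℚ_[l] (u 1 1) =
          algebraMap ℚ ℚ_[l] r * (c (ωl 0 0) - c (ωl 1 1))
        rw [← map_sub, h1, w00, w11, hcx, map_zero, sub_zero, map_mul]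
        simp
      · change algebraMap ℚ ℚ_[l] (u 0 1) = algebraMap ℚ ℚ_[l] r * c (ωl 0 1)
        rw [h2, w01, hcx, map_mul]
        simp
      · change algebraMap ℚ ℚ_[l] (u 1 0) = algebraMap ℚ ℚ_[l] r * c (ωl 1 0)
        rw [h3, w10, hcx, map_mul]
        simp
    refine ⟨fun g => hcM _ _ ?_, fun y' hy' => ?_⟩
    · rw [map_mul, map_mul]
      exact hwK g
    · obtain ⟨g, hg⟩ := hregl l
      have hgK : dsc (rat (M.ρ l) g) ≠ 0 := by
        rw [hratd]
        exact fun h => hg (hcI (by rw [h, map_zero]))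
      have hyK : c.mapMatrix y' * rat (M.ρ l) g = rat (M.ρ l) g * c.mapMatrix y' := by
        have := congrArg c.mapMatrix (hy' g)
        rw [map_mul, map_mul] at this
        exact this
      obtain ⟨b, hb1, hb2, hb3⟩ := commutant _ _ hgK hyK
      obtain ⟨b', hb1', hb2', hb3'⟩ := commutant _ _ hgK (hwK g)
      change c (y' 0 0) - c (y' 1 1) = _ at hb1
      change c (y' 0 1) = _ at hb2
      change c (y' 1 0) = _ at hb3
      change c (ωl 0 0) - c (ωl 1 1) = _ at hb1'
      change c (ωl 0 1) = _ at hb2'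
      change c (ωl 1 0) = _ at hb3'
      rw [w00, w11, map_zero, sub_zero] at hb1'
      rw [w01] at hb2'
      rw [w10] at hb3'
      have hb0 : b' ≠ 0 := by
        rintro rfl
        rw [zero_mul] at hb1' hb2' hb3'
        apply hxyz
        have hz : ∀ t : ℤ, c (t : ℤ_[l]) = 0 → t = 0 := by
          intro t ht
          have : (t : ℤ_[l]) = 0 := hcI (by rw [ht, map_zero])
          exact_mod_cast this
        exact ⟨hz _ hb1', hz _ hb2', hz _ hb3'⟩
      obtain ⟨t, ht⟩ : ∃ t, b = t * b' := ⟨b / b', by field_simp⟩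
      have t1 : c (y' 0 0) - c (y' 1 1) = t * c x := by rw [hb1, hb1', ht]; ring
      have t2 : c (y' 0 1) = t * c y := by rw [hb2, hb2', ht]; ring
      have t3 : c (y' 1 0) = t * c z := by rw [hb3, hb3', ht]; ring
      obtain ⟨b₀, hb₀⟩ : ∃ b₀ : ℤ_[l], b₀ = α * (y' 0 0 - y' 1 1) + β * y' 0 1 + γ * y' 1 0 :=
        ⟨_, rfl⟩
      have hb₀t : c b₀ = t := by
        have hbz : c α * c x + c β * c y + c γ * c z = 1 := by
          rw [← map_mul, ← map_mul, ← map_mul, ← map_add, ← map_add]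
          have : (α * x + β * y + γ * z : ℤ_[l]) = 1 := by exact_mod_cast hbez
          rw [this, map_one]
        rw [hb₀, map_add, map_add, map_mul, map_mul, map_mul, map_sub, t1, t2, t3]
        linear_combination t * hbz
      refine ⟨y' 1 1, b₀, hcM _ _ ?_⟩
      ext i j
      change c (y' i j) = c ((y' 1 1 • (1 : Matrix (Fin 2) (Fin 2) ℤ_[l]) + b₀ • ωl) i j)
      rw [Matrix.add_apply, Matrix.smul_apply, Matrix.smul_apply, smul_eq_mul, smul_eq_mul,
        map_add, map_mul, map_mul, hb₀t]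
      fin_cases i <;> fin_cases j
      · simp only [Fin.zero_eta, Matrix.one_apply_eq, map_one, w00]
        linear_combination t1
      · simp only [Fin.zero_eta, Fin.mk_one, w01]
        rw [Matrix.one_apply_ne (by decide), map_zero]
        linear_combination t2
      · simp only [Fin.zero_eta, Fin.mk_one, w10]
        rw [Matrix.one_apply_ne (by decide), map_zero]
        linear_combination t3
      · simp only [Fin.mk_one, Matrix.one_apply_eq, map_one, w11, map_zero]
        ring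

end Pool.Agent.Helper32.REC
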