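import Pool.Agent.Helper85.MU.Final
import Pool.Agent.Helper32.REC.ORD

set_option autoImplicit false

/-! `st_ADK`: finitely many adelic realizations of commutative motives of rank two. -/

open scoped Classical
open NumberField Polynomial

namespace Pool.Agent.Helper32.REC

open _root_.REC MU

/-- a matrix commuting with a regular one is determined by two traces -/
theorem zero_of {R : Type} [CommRing R] [IsDomain R] (h2 : (2 : R) ≠ 0)
    (A Y : Matrix (Fin 2) (Fin 2) R) (hA : dsc A ≠ 0) (h : Y * A = A * Y)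
    (h1 : Y.trace = 0) (h3 : (A * Y).trace = 0) : Y = 0 := by
  have e00 := congrFun (congrFun h 0) 0
  have e01 := congrFun (congrFun h 0) 1
  have e10 := congrFun (congrFun h 1) 0
  simp only [Matrix.mul_apply, Fin.sum_univ_two, Matrix.trace_fin_two] at e00 e01 e10 h1 h3
  have k01 : Y 0 1 = 0 := by
    have : dsc A * Y 0 1 = 0 := by
      rw [dsc]
      linear_combination (-(A 0 0 - A 1 1)) * e01 + 2 * A 0 1 * h3 + 2 * A 0 1 * e00 -
        A 0 1 * (A 0 0 + A 1 1) * h1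
    exact (mul_eq_zero.mp this).resolve_left hA
  have k10 : Y 1 0 = 0 := by
    have : dsc A * Y 1 0 = 0 := by
      rw [dsc]
      linear_combination (A 0 0 - A 1 1) * e10 + 2 * A 1 0 * h3 - 2 * A 1 0 * e00 -
        A 1 0 * (A 0 0 + A 1 1) * h1
    exact (mul_eq_zero.mp this).resolve_left hA
  rw [k01, k10] at h3
  rw [k01] at e01
  have ke : Y 0 0 - Y 1 1 = 0 := by
    have : dsc A * (Y 0 0 - Y 1 1) = 0 := by
      rw [dsc]
      linear_combination (2 * (A 0 0 - A 1 1)) * h3 - (A 0 0 - A 1 1) * (A 0 0 + A 1 1) * h1 +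
        4 * A 1 0 * e01
    exact (mul_eq_zero.mp this).resolve_left hA
  have k00 : Y 0 0 = 0 := by
    have : 2 * Y 0 0 = 0 := by linear_combination h1 + ke
    exact (mul_eq_zero.mp this).resolve_left h2
  have k11 : Y 1 1 = 0 := by linear_combination h1 - k00
  ext i j
  fin_cases i <;> fin_cases j
  · exact k00
  · exact k01
  · exact k10
  · exact k11

theorem det_of_tr {R : Type} [CommRing R] (A : Matrix (Fin 2) (Fin 2) R) :
    2 * A.det = A.trace ^ 2 - (A * A).trace := by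
  rw [Matrix.det_fin_two, Matrix.trace_fin_two, Matrix.trace_fin_two]
  simp only [Matrix.mul_apply, Fin.sum_univ_two]
  ring

/-- a good Frobenius element -/
theorem good_frob (hFRB : MU.ST_FRB) {F : Type} [Field F] [NumberField F] {S : Finset ℕ}
    {w : ℕ} {h : Fin 2 → ℕ} (M : Mot F S 2 w h)
    (h0 : ∃ (l : ℕ) (_ : Fact l.Prime) (g : Gal F),
      dsc (M.ρ l g : Matrix (Fin 2) (Fin 2) ℤ_[l]) ≠ 0) :
    ∃ (p : ℕ) (D : ℤ) (τ : Gal F), p.Prime ∧ D ≠ 0 ∧ ∀ (l : ℕ) [Fact l.Prime], l ≠ p →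
      dsc (M.ρ l τ : Matrix (Fin 2) (Fin 2) ℤ_[l]) = (D : ℤ_[l]) := by
  obtain ⟨l₀, hl₀, g₀, hg₀⟩ := h0
  have hl : l₀.Prime := Fact.out
  obtain ⟨K, hK⟩ : ∃ K : ℕ, ¬ (l₀ : ℤ_[l₀]) ^ K ∣ dsc (M.ρ l₀ g₀ : Matrix (Fin 2) (Fin 2) ℤ_[l₀]) := by
    refine ⟨(dsc (M.ρ l₀ g₀ : Matrix (Fin 2) (Fin 2) ℤ_[l₀])).valuation + 1, ?_⟩
    rw [← Ideal.mem_span_singleton, PadicInt.mem_span_pow_iff_le_valuation _ hg₀]
    omega
  obtain ⟨Y, hY, hYm⟩ := gl_open (M.ρ l₀) (M.continuous l₀) K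
  -- entries of products
  have hmulr : ∀ (X Z : Matrix (Fin 2) (Fin 2) ℤ_[l₀]), Cg K X → ∀ i j,
      (l₀ : ℤ_[l₀]) ^ K ∣ (X * Z) i j - Z i j := by
    intro X Z hX i j
    have : (X * Z) i j - Z i j = ((X - 1) * Z) i j := by
      rw [Matrix.sub_mul, Matrix.one_mul, Matrix.sub_apply]
    rw [this, Matrix.mul_apply]
    exact Finset.dvd_sum fun k _ => (hX i k).mul_right _
  have hYn : Y.Normal := by
    refine ⟨fun y hy g => ?_⟩
    rw [hYm] at hy ⊢
    intro i j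
    have e : (M.ρ l₀ (g * y * g⁻¹) : Matrix (Fin 2) (Fin 2) ℤ_[l₀]) - 1 =
        (M.ρ l₀ g : Matrix (Fin 2) (Fin 2) ℤ_[l₀]) * ((M.ρ l₀ y : Matrix (Fin 2) (Fin 2) ℤ_[l₀]) - 1) *
          (M.ρ l₀ g⁻¹ : Matrix (Fin 2) (Fin 2) ℤ_[l₀]) := by
      rw [Matrix.mul_sub, Matrix.sub_mul, Matrix.mul_one, ← Units.val_mul, ← Units.val_mul,
        ← Units.val_mul, ← map_mul, ← map_mul, ← map_mul, mul_inv_cancel, map_one, Units.val_one]
    rw [e, Matrix.mul_apply]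
    refine Finset.dvd_sum fun k _ => Dvd.dvd.mul_right ?_ _
    rw [Matrix.mul_apply]
    exact Finset.dvd_sum fun m _ => (hy m k).mul_left _
  obtain ⟨p, 𝔓, k, σ, hp, hpS, hov, hk, hσ, hσY⟩ := hFRB F Y hYn hY (S ∪ {l₀}) g₀⁻¹
  rw [Finset.mem_union, Finset.mem_singleton, not_or] at hpS
  obtain ⟨P, -, hP⟩ := M.pure p hp hpS.1 𝔓 hov k σ hk hσ
  have hD : ∀ (l : ℕ) [Fact l.Prime], l ≠ p →
      dsc (M.ρ l σ⁻¹ : Matrix (Fin 2) (Fin 2) ℤ_[l]) =
        ((P.coeff 1 ^ 2 - 4 * P.coeff 0 : ℤ) : ℤ_[l]) := by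
    intro l _ hlp
    rw [dsc_coeff, hP l hlp, coeff_map, coeff_map]
    simp
  refine ⟨p, P.coeff 1 ^ 2 - 4 * P.coeff 0, σ⁻¹, hp, ?_, hD⟩
  intro h0
  have h1 := hD l₀ (Ne.symm hpS.2)
  rw [h0, Int.cast_zero] at h1
  apply hK
  -- `σ⁻¹ = y⁻¹ g₀`
  have hy : (g₀⁻¹⁻¹ * σ)⁻¹ ∈ Y := Y.inv_mem hσY
  have e1 : σ⁻¹ = (g₀⁻¹⁻¹ * σ)⁻¹ * g₀ := by group
  rw [e1, map_mul, Units.val_mul] at h1
  have h2 := hmulr _ (M.ρ l₀ g₀ : Matrix (Fin 2) (Fin 2) ℤ_[l₀]) ((hYm _).mp hy)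
  obtain ⟨B, hB⟩ : ∃ B : Matrix (Fin 2) (Fin 2) ℤ_[l₀], B = (M.ρ l₀ (g₀⁻¹⁻¹ * σ)⁻¹ : Matrix (Fin 2) (Fin 2) ℤ_[l₀]) *
    (M.ρ l₀ g₀ : Matrix (Fin 2) (Fin 2) ℤ_[l₀]) := ⟨_, rfl⟩
  rw [← hB] at h1 h2
  obtain ⟨a, ha⟩ := h2 0 0
  obtain ⟨b, hb⟩ := h2 0 1
  obtain ⟨c, hc⟩ := h2 1 0
  obtain ⟨d, hd⟩ := h2 1 1
  obtain ⟨A, hA⟩ : ∃ A : Matrix (Fin 2) (Fin 2) ℤ_[l₀],
    A = (M.ρ l₀ g₀ : Matrix (Fin 2) (Fin 2) ℤ_[l₀]) := ⟨_, rfl⟩
  rw [← hA] at ha hb hc hd ⊢
  have a' : A 0 0 = B 0 0 - (l₀ : ℤ_[l₀]) ^ K * a := by linear_combination -ha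
  have b' : A 0 1 = B 0 1 - (l₀ : ℤ_[l₀]) ^ K * b := by linear_combination -hb
  have c' : A 1 0 = B 1 0 - (l₀ : ℤ_[l₀]) ^ K * c := by linear_combination -hc
  have d' : A 1 1 = B 1 1 - (l₀ : ℤ_[l₀]) ^ K * d := by linear_combination -hd
  rw [dsc] at h1
  rw [dsc, a', b', c', d']
  refine ⟨-2 * (B 0 0 - B 1 1) * (a - d) + (l₀ : ℤ_[l₀]) ^ K * (a - d) ^ 2 -
    4 * B 0 1 * c - 4 * B 1 0 * b + 4 * (l₀ : ℤ_[l₀]) ^ K * (b * c), ?_⟩
  linear_combination h1

theorem adk_main (hFAL : MU.ST_FAL) (hTRQ : MU.ST_TRQ) (hFRB : MU.ST_FRB) (hTRP : ST_TRP)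
    (hMAT : ST_MAT) : ST_ADK := by
  intro F _ _ S hS w h
  obtain ⟨κ, hκ, col, hcol⟩ := hFAL F S hS 2 w h
  have htr : ∀ M M' : Mot F S 2 w h, col M = col M' → ∀ (l : ℕ) [Fact l.Prime] (g : Gal F),
      (M.ρ l g : Matrix (Fin 2) (Fin 2) ℤ_[l]).trace = (M'.ρ l g : Matrix (Fin 2) (Fin 2) ℤ_[l]).trace := by
    intro M M' hMM' l _ g
    have h1 := hTRQ F S hS 2 w h M M' (hcol M M' hMM') l g
    have h2 : ∀ M : Mot F S 2 w h, (rat (M.ρ l) g).trace =
        algebraMap ℤ_[l] ℚ_[l] (M.ρ l g : Matrix (Fin 2) (Fin 2) ℤ_[l]).trace := by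
      intro M
      rw [Matrix.trace_fin_two, Matrix.trace_fin_two, map_add]
      rfl
    rw [h2, h2] at h1
    exact FaithfulSMul.algebraMap_injective ℤ_[l] ℚ_[l] h1
  have hdt : ∀ M M' : Mot F S 2 w h, col M = col M' → ∀ (l : ℕ) [Fact l.Prime] (g : Gal F),
      (M.ρ l g : Matrix (Fin 2) (Fin 2) ℤ_[l]).det = (M'.ρ l g : Matrix (Fin 2) (Fin 2) ℤ_[l]).det := by
    intro M M' hMM' l _ g
    have h2 : (2 : ℤ_[l]) ≠ 0 := two_ne_zero
    apply mul_left_cancel₀ h2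
    rw [det_of_tr, det_of_tr, htr M M' hMM' l g, ← Units.val_mul, ← Units.val_mul, ← map_mul,
      ← map_mul, htr M M' hMM' l (g * g)]
  -- representatives
  have hrep : ∀ k : κ, ∃ (c m : ℕ) (f : ∀ (l : ℕ) [Fact l.Prime],
      (Gal F →* Matrix.GeneralLinearGroup (Fin 2) ℤ_[l]) → ℕ),
      (∀ (l : ℕ) [Fact l.Prime], l ≤ c → ∀ s, f l s < m) ∧
      ∀ M M' : Mot F S 2 w h, Cm M → Cm M' → col M = k → col M' = k →
        ∀ (l : ℕ) [Fact l.Prime], (c < l ∨ f l (M.ρ l) = f l (M'.ρ l)) →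
          EqvZ (M.ρ l) (M'.ρ l) := by
    intro k
    by_cases hk : ∃ R : Mot F S 2 w h, Cm R ∧ col R = k
    · obtain ⟨R, hR, hRk⟩ := hk
      obtain ⟨p, D, τ, hp, hD0, hD⟩ := good_frob hFRB R hR.2
      obtain ⟨c, hc⟩ : ∃ c, c = p + D.natAbs := ⟨_, rfl⟩
      have hgl : ∀ (l : ℕ) (_ : Fact l.Prime), ∃ g : Gal F,
          dsc (R.ρ l g : Matrix (Fin 2) (Fin 2) ℤ_[l]) ≠ 0 ∧
          (c < l → IsUnit (dsc (R.ρ l g : Matrix (Fin 2) (Fin 2) ℤ_[l]))) := by
        intro l hl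
        by_cases hlp : l = p
        · obtain ⟨g, hg⟩ := reg_all hTRP hS R hR.2 l
          exact ⟨g, hg, fun h => by omega⟩
        · refine ⟨τ, ?_, fun hcl => ?_⟩
          · rw [hD l hlp]
            exact_mod_cast hD0
          · rw [hD l hlp, PadicInt.isUnit_iff]
            by_contra h7
            have h8 : ‖(D : ℤ_[l])‖ < 1 := lt_of_le_of_ne (PadicInt.norm_le_one _) h7
            have h9 := (PadicInt.norm_int_lt_one_iff_dvd D).mp h8
            have h10 := Int.natAbs_dvd_natAbs.mpr h9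
            rw [Int.natAbs_natCast] at h10
            have h11 := Nat.le_of_dvd (Int.natAbs_pos.mpr hD0) h10
            omega
      choose gl hgl1 hgl2 using hgl
      have h3 : ∀ (l : ℕ) (hl : Fact l.Prime), ∃ (m : ℕ)
          (f : Matrix (Fin 2) (Fin 2) ℤ_[l] → ℕ), (∀ A, f A < m) ∧
          (c < l → ∀ A A', f A = f A') ∧
          ∀ A A' : Matrix (Fin 2) (Fin 2) ℤ_[l],
            A.trace = (R.ρ l (gl l hl) : Matrix (Fin 2) (Fin 2) ℤ_[l]).trace →
            A'.trace = (R.ρ l (gl l hl) : Matrix (Fin 2) (Fin 2) ℤ_[l]).trace →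
            A.det = (R.ρ l (gl l hl) : Matrix (Fin 2) (Fin 2) ℤ_[l]).det →
            A'.det = (R.ρ l (gl l hl) : Matrix (Fin 2) (Fin 2) ℤ_[l]).det → f A = f A' →
            ∃ u : Matrix.GeneralLinearGroup (Fin 2) ℤ_[l],
              (u : Matrix (Fin 2) (Fin 2) ℤ_[l]) * A = A' * u := by
        intro l hl
        have hdd : dsc (R.ρ l (gl l hl) : Matrix (Fin 2) (Fin 2) ℤ_[l]) =
            (R.ρ l (gl l hl) : Matrix (Fin 2) (Fin 2) ℤ_[l]).trace ^ 2 -
              4 * (R.ρ l (gl l hl) : Matrix (Fin 2) (Fin 2) ℤ_[l]).det := dsc_eq _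
        obtain ⟨κ', hκ', col', hc1, hc2⟩ := hMAT l
          (R.ρ l (gl l hl) : Matrix (Fin 2) (Fin 2) ℤ_[l]).trace
          (R.ρ l (gl l hl) : Matrix (Fin 2) (Fin 2) ℤ_[l]).det (by
            rw [← hdd]
            exact hgl1 l hl)
        obtain ⟨N, ⟨eq⟩⟩ := Finite.exists_equiv_fin κ'
        refine ⟨N, fun A => (eq (col' A) : Fin N), fun A => Fin.is_lt _, fun hcl A A' => ?_,
          fun A A' a1 a2 a3 a4 hff => ?_⟩
        · have := hc1 (by
            rw [← hdd]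
            exact hgl2 l hl hcl) A A'
          change ((eq (col' A) : Fin N) : ℕ) = (eq (col' A') : Fin N)
          rw [this]
        · exact hc2 A A' a1 a2 a3 a4 (eq.injective (Fin.ext hff))
      choose m f hf1 hf2 hf3 using h3
      let m' : ℕ → ℕ := fun l => if hl : l.Prime then m l ⟨hl⟩ else 0
      refine ⟨c, (Finset.range (c + 1)).sup m', fun l hl s => f l hl (s (gl l hl)), ?_, ?_⟩
      · intro l hl hlc s
        refine (hf1 l hl _).trans_le ?_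
        have h4 : m' l = m l hl := dif_pos hl.out
        rw [← h4]
        exact Finset.le_sup (f := m') (Finset.mem_range.2 (by omega))
      · intro M M' hM hM' hMk hM'k l hl hor
        have hMR : col M = col R := hMk.trans hRk.symm
        have hM'R : col M' = col R := hM'k.trans hRk.symm
        have hMM' : col M = col M' := hMk.trans hM'k.symm
        have hff : f l hl (M.ρ l (gl l hl)) = f l hl (M'.ρ l (gl l hl)) := by
          rcases hor with h5 | h5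
          · exact hf2 l hl h5 _ _
          · exact h5
        obtain ⟨u, hu⟩ := hf3 l hl _ _ (htr M R hMR l _) (htr M' R hM'R l _) (hdt M R hMR l _)
          (hdt M' R hM'R l _) hff
        have hu' : u * M.ρ l (gl l hl) = M'.ρ l (gl l hl) * u := Units.ext hu
        refine ⟨u, fun g => ?_⟩
        -- conjugation
        have hA' : M'.ρ l (gl l hl) = u * M.ρ l (gl l hl) * u⁻¹ := by
          rw [hu', mul_assoc, mul_inv_cancel, mul_one]
        have hd' : dsc (M'.ρ l (gl l hl) : Matrix (Fin 2) (Fin 2) ℤ_[l]) ≠ 0 := by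
          rw [dsc_eq, htr M' R hM'R l, hdt M' R hM'R l, ← dsc_eq]
          exact hgl1 l hl
        have hcM := hM.1 l (gl l hl) g
        have hcM' := hM'.1 l (gl l hl) g
        have key := zero_of (two_ne_zero : (2 : ℤ_[l]) ≠ 0)
          (M'.ρ l (gl l hl) : Matrix (Fin 2) (Fin 2) ℤ_[l])
          (((u * M.ρ l g * u⁻¹ : Matrix.GeneralLinearGroup (Fin 2) ℤ_[l]) :
            Matrix (Fin 2) (Fin 2) ℤ_[l]) - (M'.ρ l g : Matrix (Fin 2) (Fin 2) ℤ_[l])) hd' ?_ ?_ ?_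
        · have e1 : u * M.ρ l g * u⁻¹ = M'.ρ l g := Units.ext (sub_eq_zero.mp key)
          rw [← e1, mul_assoc (u * M.ρ l g), inv_mul_cancel, mul_one]
        · rw [Matrix.sub_mul, Matrix.mul_sub, ← Units.val_mul, ← Units.val_mul, ← Units.val_mul,
            ← Units.val_mul, hcM']
          congr 2
          rw [hA']
          calc u * M.ρ l g * u⁻¹ * (u * M.ρ l (gl l hl) * u⁻¹) =
              u * (M.ρ l g * M.ρ l (gl l hl)) * u⁻¹ := by group
            _ = u * (M.ρ l (gl l hl) * M.ρ l g) * u⁻¹ := by rw [hcM]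
            _ = u * M.ρ l (gl l hl) * u⁻¹ * (u * M.ρ l g * u⁻¹) := by group
        · rw [Matrix.trace_sub, Units.val_mul, Matrix.trace_mul_comm, ← Units.val_mul,
            ← mul_assoc, inv_mul_cancel, one_mul, htr M M' hMM' l g, sub_self]
        · rw [Matrix.mul_sub, Matrix.trace_sub, ← Units.val_mul, ← Units.val_mul]
          have e1 : M'.ρ l (gl l hl) * (u * M.ρ l g * u⁻¹) = u * M.ρ l (gl l hl * g) * u⁻¹ := by
            rw [hA', map_mul]
            group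
          rw [e1, Units.val_mul, Matrix.trace_mul_comm, ← Units.val_mul, ← mul_assoc,
            inv_mul_cancel, one_mul, ← map_mul, htr M M' hMM' l, sub_self]
    · refine ⟨0, 0, fun l _ _ => 0, ?_, ?_⟩
      · intro l hl h0
        have := hl.out.pos
        omega
      · intro M M' hM hM' hMk
        exact absurd ⟨M, hM, hMk⟩ hk
  choose c m f hf1 hf2 using hrep
  have : Fintype κ := Fintype.ofFinite κ
  set C : ℕ := Finset.univ.sup c with hC
  set D : ℕ := Finset.univ.sup m with hD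
  have hcC : ∀ k, c k ≤ C := fun k => Finset.le_sup (Finset.mem_univ k)
  have hmD : ∀ k, m k ≤ D := fun k => Finset.le_sup (Finset.mem_univ k)
  refine ⟨κ × (Fin (C + 1) → Fin (D + 1)), inferInstance, fun M => (col M, fun l =>
    if hl : (l : ℕ).Prime then
      ⟨min D (@f (col M) l ⟨hl⟩ (@Mot.ρ _ _ _ _ _ _ _ M l ⟨hl⟩)), by omega⟩ else 0), ?_⟩
  intro M M' hM hM' hMM' l hl
  have e1 : col M = col M' := congrArg Prod.fst hMM'
  have e2 := congrArg Prod.snd hMM'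
  have key : EqvZ (M.ρ l) (M'.ρ l) := by
    refine hf2 (col M) M M' hM hM' rfl e1.symm l ?_
    by_cases hlc : c (col M) < l
    · exact Or.inl hlc
    · right
      push Not at hlc
      have hlC : l < C + 1 := by have := hcC (col M); omega
      have e3 := congrFun e2 ⟨l, hlC⟩
      simp only [hl.out, dif_pos] at e3
      have e4 := congrArg Fin.val e3
      simp only at e4
      have b1 := (hf1 (col M) l hlc (M.ρ l)).le.trans (hmD _)
      have b2 := (hf1 (col M) l hlc (M'.ρ l)).le.trans (hmD _)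
      rw [← e1] at e4
      rw [min_eq_right b1, min_eq_right b2] at e4
      exact e4
  exact key

theorem st_ADK (hTRP : ST_TRP) (hMAT : ST_MAT) : ST_ADK :=
  adk_main MU.all_FAL MU.all_TRQ MU.st_FRB hTRP hMAT

end Pool.Agent.Helper32.REC
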