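import Mathlib

set_option autoImplicit false

/-! Orthogonal three by three matrices: algebra for the group lemma in rank three. -/

namespace Pool.Agent.Helper32.REC

/-- Chebyshev polynomials of the second kind at `t / 2`, shifted -/
def U {R : Type} [CommRing R] (t : R) : ℕ → R
  | 0 => 0
  | 1 => 1
  | n + 2 => t * U t (n + 1) - U t n

theorem U_inv {R : Type} [CommRing R] (t : R) (n : ℕ) :
    U t (n + 1) ^ 2 - t * U t n * U t (n + 1) + U t n ^ 2 = 1 := by
  induction n with
  | zero => simp [U]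
  | succ n ih =>
    have h : U t (n + 1 + 1) = t * U t (n + 1) - U t n := rfl
    rw [h]
    linear_combination ih

theorem U_dvd {R : Type} [CommRing R] (t : R) (n : ℕ) :
    t - 2 ∣ U t n - n ∧ t - 2 ∣ U t (n + 1) - (n + 1) := by
  induction n with
  | zero => simp [U]
  | succ n ih =>
    obtain ⟨⟨a, ha⟩, ⟨b, hb⟩⟩ := ih
    refine ⟨⟨b, by push_cast; exact hb⟩, ⟨U t (n + 1) + 2 * b - a, ?_⟩⟩
    have h : U t (n + 1 + 1) = t * U t (n + 1) - U t n := rfl
    rw [h]
    push_cast
    linear_combination 2 * hb - ha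

/-- Cayley-Hamilton in size three -/
theorem CH3 {R : Type} [CommRing R] (A : Matrix (Fin 3) (Fin 3) R) :
    A * A * A = A.trace • (A * A) - A.adjugate.trace • A + A.det • (1 : Matrix (Fin 3) (Fin 3) R) := by
  ext i j
  fin_cases i <;> fin_cases j <;>
    simp [Matrix.mul_apply, Fin.sum_univ_three, Matrix.trace_fin_three, Matrix.adjugate_fin_three,
      Matrix.det_fin_three] <;> ring

theorem tr_sq {R : Type} [CommRing R] (A : Matrix (Fin 3) (Fin 3) R) :
    (A * A).trace = A.trace ^ 2 - 2 * A.adjugate.trace := by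
  simp [Matrix.mul_apply, Fin.sum_univ_three, Matrix.trace_fin_three, Matrix.adjugate_fin_three]
  ring

theorem tr_pow {R : Type} [CommRing R] (A : Matrix (Fin 3) (Fin 3) R) (hdet : A.det = 1)
    (hadj : A.adjugate.trace = A.trace) (n : ℕ) :
    (A ^ n).trace = 1 + 2 * U (A.trace - 1) (n + 1) - (A.trace - 1) * U (A.trace - 1) n ∧
    (A ^ (n + 1)).trace = 1 + 2 * U (A.trace - 1) (n + 2) - (A.trace - 1) * U (A.trace - 1) (n + 1) ∧
    (A ^ (n + 2)).trace = 1 + 2 * U (A.trace - 1) (n + 3) -
      (A.trace - 1) * U (A.trace - 1) (n + 2) := by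
  induction n with
  | zero =>
    refine ⟨by simp [U]; ring, by simp [U]; ring, ?_⟩
    rw [zero_add, pow_two, tr_sq, hadj]
    simp [U]
    ring
  | succ n ih =>
    obtain ⟨h1, h2, h3⟩ := ih
    refine ⟨h2, h3, ?_⟩
    have e : A ^ (n + 1 + 2) = A.trace • A ^ (n + 2) - A.trace • A ^ (n + 1) + A ^ n := by
      have e1 : A ^ (n + 1 + 2) = A ^ n * (A * A * A) := by
        rw [show n + 1 + 2 = n + 3 by ring, pow_add]
        congr 1
        rw [pow_succ, pow_two]
      rw [e1, CH3, hdet, hadj, Matrix.mul_add, Matrix.mul_sub, Matrix.mul_smul, Matrix.mul_smul,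
        one_smul, Matrix.mul_one, pow_add A n 2, pow_two A, pow_succ A n]
    rw [e, Matrix.trace_add, Matrix.trace_sub, Matrix.trace_smul, Matrix.trace_smul, h1, h2, h3]
    have u2 : U (A.trace - 1) (n + 2) = (A.trace - 1) * U (A.trace - 1) (n + 1) - U (A.trace - 1) n := rfl
    have u3 : U (A.trace - 1) (n + 3) =
      (A.trace - 1) * U (A.trace - 1) (n + 2) - U (A.trace - 1) (n + 1) := rfl
    have u4 : U (A.trace - 1) (n + 1 + 3) =
      (A.trace - 1) * U (A.trace - 1) (n + 3) - U (A.trace - 1) (n + 2) := rfl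
    simp only [smul_eq_mul]
    rw [u4, show n + 1 + 2 = n + 3 by ring, u3, u2]
    ring

/-- the discriminant of the power -/
theorem f_pow {R : Type} [CommRing R] (A : Matrix (Fin 3) (Fin 3) R) (hdet : A.det = 1)
    (hadj : A.adjugate.trace = A.trace) (n : ℕ) :
    ((A ^ n).trace - 3) * ((A ^ n).trace + 1) =
      (A.trace - 3) * (A.trace + 1) * U (A.trace - 1) n ^ 2 := by
  rw [(tr_pow A hdet hadj n).1]
  have h := U_inv (A.trace - 1) n
  linear_combination 4 * h

/-- the form -/
theorem form_adj {K : Type} [Field K] (A ψ : Matrix (Fin 3) (Fin 3) K)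
    (h : A.transpose * ψ * A = ψ) (hdet : A.det = 1) :
    ψ * A.adjugate = A.transpose * ψ := by
  conv_lhs => rw [← h]
  rw [Matrix.mul_assoc, Matrix.mul_adjugate, hdet, one_smul, Matrix.mul_one]

theorem form_tr {K : Type} [Field K] (A ψ : Matrix (Fin 3) (Fin 3) K) (hψ : ψ.det ≠ 0)
    (h : A.transpose * ψ * A = ψ) (hdet : A.det = 1) : A.adjugate.trace = A.trace := by
  have h1 := form_adj A ψ h hdet
  have hu : IsUnit ψ.det := hψ.isUnit
  have h2 : A.adjugate = ψ⁻¹ * (A.transpose * ψ) := by
    rw [← h1, ← Matrix.mul_assoc, Matrix.nonsing_inv_mul _ hu, Matrix.one_mul]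
  rw [h2, Matrix.trace_mul_comm, Matrix.mul_assoc, Matrix.mul_nonsing_inv _ hu, Matrix.mul_one,
    Matrix.trace_transpose]

theorem adj_one_add {R : Type} [CommRing R] (n : Matrix (Fin 3) (Fin 3) R) :
    (1 + n).adjugate = 1 + n.trace • (1 : Matrix (Fin 3) (Fin 3) R) - n + n.adjugate := by
  ext i j
  fin_cases i <;> fin_cases j <;>
    simp [Matrix.trace_fin_three, Matrix.adjugate_fin_three] <;> ring

/-- an orthogonal matrix of determinant one with `(A - 1)^2 = 0` is trivial -/
theorem unip {K : Type} [Field K] (h2 : (2 : K) ≠ 0) (A ψ : Matrix (Fin 3) (Fin 3) K)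
    (hψ : ψ.det ≠ 0) (hs : ψ.transpose = ψ)
    (h : A.transpose * ψ * A = ψ) (hdet : A.det = 1) (hn : (A - 1) * (A - 1) = 0) : A = 1 := by
  obtain ⟨n, hA⟩ : ∃ n, A = 1 + n := ⟨A - 1, by abel⟩
  have hn' : n * n = 0 := by
    rw [hA, add_sub_cancel_left] at hn
    exact hn
  have hadj : A.adjugate = 1 - n := by
    have e1 : A * (1 - n) = 1 := by
      rw [hA, Matrix.add_mul, Matrix.one_mul, Matrix.mul_sub, Matrix.mul_one, hn']
      abel
    calc A.adjugate = A.adjugate * (A * (1 - n)) := by rw [e1, Matrix.mul_one]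
      _ = 1 - n := by rw [← Matrix.mul_assoc, Matrix.adjugate_mul, hdet, one_smul, Matrix.one_mul]
  have htr : n.trace = 0 := by
    have e1 := form_tr A ψ hψ h hdet
    rw [hadj, hA, Matrix.trace_sub, Matrix.trace_add] at e1
    have e2 : 2 * n.trace = 0 := by linear_combination -e1
    exact (mul_eq_zero.mp e2).resolve_left h2
  have hadn : n.adjugate = 0 := by
    have e1 := adj_one_add n
    rw [← hA, hadj, htr, zero_smul, add_zero] at e1
    have e2 : n.adjugate = (1 - n + n.adjugate) - (1 - n) := by abel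
    rw [e2, ← e1, sub_self]
  -- C = ψ n is antisymmetric
  obtain ⟨C, hC⟩ : ∃ C, C = ψ * n := ⟨_, rfl⟩
  have hanti : C.transpose = -C := by
    have e1 := form_adj A ψ h hdet
    rw [hadj, hA, Matrix.transpose_add, Matrix.transpose_one, Matrix.add_mul, Matrix.one_mul,
      Matrix.mul_sub, Matrix.mul_one] at e1
    rw [hC, Matrix.transpose_mul, hs]
    have e2 : n.transpose * ψ = (ψ + n.transpose * ψ) - ψ := by abel
    rw [e2, ← e1]
    abel
  have hadC : C.adjugate = 0 := by
    rw [hC, Matrix.adjugate_mul_distrib, hadn, Matrix.zero_mul]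
  have hC0 : C = 0 := by
    have a1 : ∀ i j, C j i = -C i j := by
      intro i j
      have := congrFun (congrFun hanti i) j
      simpa using this
    have d : ∀ i, C i i = 0 := by
      intro i
      have := a1 i i
      have e2 : 2 * C i i = 0 := by linear_combination this
      exact (mul_eq_zero.mp e2).resolve_left h2
    have c00 := congrFun (congrFun hadC 0) 0
    have c11 := congrFun (congrFun hadC 1) 1
    have c22 := congrFun (congrFun hadC 2) 2
    simp [Matrix.adjugate_fin_three, d, a1 1 2, a1 0 2, a1 0 1] at c00 c11 c22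
    ext i j
    fin_cases i <;> fin_cases j <;> simp [d, a1 1 2, a1 0 2, a1 0 1, c00, c11, c22]
  have hn0 : n = 0 := by
    have hu : IsUnit ψ.det := hψ.isUnit
    calc n = ψ⁻¹ * (ψ * n) := by rw [← Matrix.mul_assoc, Matrix.nonsing_inv_mul _ hu, Matrix.one_mul]
      _ = 0 := by rw [← hC, hC0, Matrix.mul_zero]
  rw [hA, hn0, add_zero]

/-- the degenerate case: a line from a regular unipotent element -/
theorem deg3 {K : Type} [Field K] (A ψ : Matrix (Fin 3) (Fin 3) K)
    (hψ : ψ.det ≠ 0) (hs : ψ.transpose = ψ)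
    (h : A.transpose * ψ * A = ψ) (hn3 : (A - 1) * (A - 1) * (A - 1) = 0)
    (hn2 : (A - 1) * (A - 1) ≠ 0) :
    ∃ z : Fin 3 → K, z ≠ 0 ∧ ∀ B : Matrix (Fin 3) (Fin 3) K, B.transpose * ψ * B = ψ →
      ((A - 1) * (A - 1) * B).trace = 0 → ∃ c : K, B.mulVec z = c • z := by
  obtain ⟨n, hA⟩ : ∃ n, A = 1 + n := ⟨A - 1, by abel⟩
  have hAn : A - 1 = n := by rw [hA]; abel
  rw [hAn] at hn3 hn2 ⊢
  -- a vector
  obtain ⟨x, hx⟩ : ∃ x : Fin 3 → K, (n * n).mulVec x ≠ 0 := by
    by_contra hcon
    push Not at hcon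
    apply hn2
    ext i j
    have := congrFun (hcon (Pi.single j 1)) i
    simpa using this
  obtain ⟨P, hP⟩ : ∃ P : Matrix (Fin 3) (Fin 3) K,
      P = Matrix.of fun i j => (![x, n.mulVec x, (n * n).mulVec x] j) i := ⟨_, rfl⟩
  obtain ⟨N, hN⟩ : ∃ N : Matrix (Fin 3) (Fin 3) K, N = !![0, 0, 0; 1, 0, 0; 0, 1, 0] := ⟨_, rfl⟩
  have hPc : ∀ j i, P i j = (![x, n.mulVec x, (n * n).mulVec x] j) i := by
    intro j i
    rw [hP]
    rfl
  have hnP : n * P = P * N := by
    ext i j
    have e1 : (n * P) i j = (n.mulVec (![x, n.mulVec x, (n * n).mulVec x] j)) i := by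
      rw [Matrix.mul_apply, Matrix.mulVec, dotProduct]
      refine Finset.sum_congr rfl fun k _ => ?_
      rw [hPc]
    rw [e1, Matrix.mul_apply, Fin.sum_univ_three, hPc, hPc, hPc, hN]
    fin_cases j
    · simp
    · simp [Matrix.mulVec_mulVec]
    · have e2 : n.mulVec ((n * n).mulVec x) = 0 := by
        rw [Matrix.mulVec_mulVec, ← Matrix.mul_assoc, hn3, Matrix.zero_mulVec]
      simp [e2]
  have hz : (n * n).mulVec x = fun i => P i 2 := by
    funext i
    rw [hPc]
    simp
  have hdetP : P.det ≠ 0 := by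
    intro hdet
    obtain ⟨w, hw0, hw⟩ := Matrix.exists_mulVec_eq_zero_iff.mpr hdet
    have hsum : w 0 • x + w 1 • n.mulVec x + w 2 • (n * n).mulVec x = 0 := by
      funext i
      have := congrFun hw i
      rw [Matrix.mulVec, dotProduct, Fin.sum_univ_three, hPc, hPc, hPc] at this
      simp only [Matrix.cons_val_zero, Matrix.cons_val_one, Matrix.cons_val_two] at this
      simp only [Pi.add_apply, Pi.smul_apply, smul_eq_mul, Pi.zero_apply]
      simp at this
      linear_combination this
    have hnn : n.mulVec ((n * n).mulVec x) = 0 := by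
      rw [Matrix.mulVec_mulVec, ← Matrix.mul_assoc, hn3, Matrix.zero_mulVec]
    have s1 : w 0 • n.mulVec x + w 1 • (n * n).mulVec x = 0 := by
      have := congrArg n.mulVec hsum
      rw [Matrix.mulVec_add, Matrix.mulVec_add, Matrix.mulVec_smul, Matrix.mulVec_smul,
        Matrix.mulVec_smul, hnn, smul_zero, add_zero, Matrix.mulVec_zero, Matrix.mulVec_mulVec] at this
      exact this
    have s2 : w 0 • (n * n).mulVec x = 0 := by
      have := congrArg n.mulVec s1
      rw [Matrix.mulVec_add, Matrix.mulVec_smul, Matrix.mulVec_smul, hnn, smul_zero, add_zero,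
        Matrix.mulVec_zero, Matrix.mulVec_mulVec] at this
      exact this
    have w0 : w 0 = 0 := (smul_eq_zero.mp s2).resolve_right hx
    rw [w0, zero_smul, zero_add] at s1
    have w1 : w 1 = 0 := (smul_eq_zero.mp s1).resolve_right hx
    rw [w0, w1, zero_smul, zero_smul, zero_add, zero_add] at hsum
    have w2 : w 2 = 0 := (smul_eq_zero.mp hsum).resolve_right hx
    apply hw0
    funext i
    fin_cases i
    · exact w0
    · exact w1
    · exact w2
  have hu : IsUnit P.det := hdetP.isUnit
  -- the form in the new basis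
  obtain ⟨Φ, hΦ⟩ : ∃ Φ, Φ = P.transpose * ψ * P := ⟨_, rfl⟩
  have hΦs : Φ.transpose = Φ := by
    rw [hΦ, Matrix.transpose_mul, Matrix.transpose_mul, Matrix.transpose_transpose, hs,
      Matrix.mul_assoc]
  have hΦd : Φ.det ≠ 0 := by
    rw [hΦ, Matrix.det_mul, Matrix.det_mul, Matrix.det_transpose]
    exact mul_ne_zero (mul_ne_zero hdetP hψ) hdetP
  have hconj : ∀ X Y : Matrix (Fin 3) (Fin 3) K, X * P = P * Y → X.transpose * ψ * X = ψ →
      Y.transpose * Φ * Y = Φ := by
    intro X Y h1 h2
    rw [hΦ]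
    calc Y.transpose * (P.transpose * ψ * P) * Y =
        (P * Y).transpose * ψ * (P * Y) := by
          rw [Matrix.transpose_mul]
          simp only [Matrix.mul_assoc]
      _ = (X * P).transpose * ψ * (X * P) := by rw [h1]
      _ = P.transpose * (X.transpose * ψ * X) * P := by
          rw [Matrix.transpose_mul]
          simp only [Matrix.mul_assoc]
      _ = P.transpose * ψ * P := by rw [h2]
  have hAP : A * P = P * (1 + N) := by
    rw [hA, Matrix.add_mul, Matrix.mul_add, Matrix.one_mul, Matrix.mul_one, hnP]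
  have hG := hconj A (1 + N) hAP h
  have hsym : ∀ i j, Φ i j = Φ j i := by
    intro i j
    have := congrFun (congrFun hΦs j) i
    simpa using this
  have g12 : Φ 1 2 = 0 := by
    have := congrFun (congrFun hG 2) 0
    simp [Matrix.mul_apply, Fin.sum_univ_three, hN, hsym 2 1] at this
    exact this
  have g22 : Φ 2 2 = 0 := by
    have := congrFun (congrFun hG 2) 1
    simp [Matrix.mul_apply, Fin.sum_univ_three, hN] at this
    exact this
  have g11 : Φ 1 1 = -Φ 0 2 := by
    have := congrFun (congrFun hG 1) 0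
    simp [Matrix.mul_apply, Fin.sum_univ_three, hN, hsym 2 1, hsym 2 0, hsym 1 0, g12] at this
    linear_combination this
  have hne : Φ 0 2 ≠ 0 := by
    intro h0
    apply hΦd
    rw [Matrix.det_fin_three, hsym 2 1, hsym 2 0, hsym 1 0, g12, g22, g11, h0]
    ring
  refine ⟨(n * n).mulVec x, hx, fun B hB htr => ?_⟩
  obtain ⟨Y, hY⟩ : ∃ Y, B * P = P * Y := by
    refine ⟨P⁻¹ * (B * P), ?_⟩
    rw [← Matrix.mul_assoc, Matrix.mul_nonsing_inv _ hu, Matrix.one_mul]
  have hYf := hconj B Y hY hB
  have hY02 : Y 0 2 = 0 := by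
    have e1 : (n * n * B) * P = P * (N * N * Y) := by
      rw [Matrix.mul_assoc, hY, ← Matrix.mul_assoc, Matrix.mul_assoc n n P, hnP,
        ← Matrix.mul_assoc n P N, hnP]
      simp only [Matrix.mul_assoc]
    have e2 : n * n * B = P * (N * N * Y) * P⁻¹ := by
      rw [← e1, Matrix.mul_assoc (n * n * B) P, Matrix.mul_nonsing_inv _ hu, Matrix.mul_one]
    rw [e2, Matrix.trace_mul_comm, ← Matrix.mul_assoc, Matrix.nonsing_inv_mul _ hu,
      Matrix.one_mul] at htr
    simp only [Matrix.trace_fin_three, Matrix.mul_apply, Fin.sum_univ_three] at htr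
    simp [hN] at htr
    exact htr
  have hY12 : Y 1 2 = 0 := by
    have := congrFun (congrFun hYf 2) 2
    simp [Matrix.mul_apply, Fin.sum_univ_three, hY02, g22, hsym 2 1, g12, g11] at this
    rcases this with this | this
    · rcases this with this | this
      · exact this
      · exact absurd this hne
    · exact this
  refine ⟨Y 2 2, ?_⟩
  rw [hz]
  funext i
  have := congrFun (congrFun hY i) 2
  rw [Matrix.mul_apply, Matrix.mul_apply, Fin.sum_univ_three (fun j => P i j * Y j 2), hY02, hY12,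
    mul_zero, mul_zero, zero_add, zero_add] at this
  simp only [Matrix.mulVec, dotProduct, Pi.smul_apply, smul_eq_mul]
  rw [this]
  ring

end Pool.Agent.Helper32.REC
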