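import Pool.Agent.Helper85.REC.Stmts9
import Pool.Agent.Helper32.REC.GO3A

set_option autoImplicit false

/-! `st_GO3`: the group lemma in rank three. -/

namespace Pool.Agent.Helper32.REC

open _root_.REC MU

/-! ### relations in the basis of eigenvectors -/

section Rel

variable {K : Type} [Field K]

theorem rel_adj (s q : K) (hs : s ≠ 0) (hq : q ≠ 0) (B : Matrix (Fin 3) (Fin 3) K)
    (h : B.transpose * !![0, 0, s; 0, q, 0; s, 0, 0] * B = !![0, 0, s; 0, q, 0; s, 0, 0])
    (hdet : B.det = 1) :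
    (B 1 1 * B 2 2 - B 1 2 * B 2 1 = B 2 2 ∧ B 0 0 * B 1 1 - B 0 1 * B 1 0 = B 0 0 ∧
      B 0 0 * B 2 2 - B 0 2 * B 2 0 = B 1 1) ∧
    (B 0 1 * B 1 2 - B 0 2 * B 1 1 = B 0 2 ∧ B 1 0 * B 2 1 - B 1 1 * B 2 0 = B 2 0) ∧
    (s * (B 0 2 * B 2 1 - B 0 1 * B 2 2) = q * B 1 2 ∧
      q * (B 1 2 * B 2 0 - B 1 0 * B 2 2) = s * B 2 1) := by
  have h1 := form_adj B _ h hdet
  rw [Matrix.adjugate_fin_three] at h1
  have e : ∀ i j, (!![0, 0, s; 0, q, 0; s, 0, 0] * !![B 1 1 * B 2 2 - B 1 2 * B 2 1, -(B 0 1 * B 2 2) + B 0 2 * B 2 1,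
          B 0 1 * B 1 2 - B 0 2 * B 1 1; -(B 1 0 * B 2 2) + B 1 2 * B 2 0, B 0 0 * B 2 2 - B 0 2 * B 2 0,
          -(B 0 0 * B 1 2) + B 0 2 * B 1 0; B 1 0 * B 2 1 - B 1 1 * B 2 0,
          -(B 0 0 * B 2 1) + B 0 1 * B 2 0, B 0 0 * B 1 1 - B 0 1 * B 1 0]) i j =
        (B.transpose * !![0, 0, s; 0, q, 0; s, 0, 0]) i j := fun i j => congrFun (congrFun h1 i) j
  have e20 := e 2 0
  have e21 := e 2 1
  have e22 := e 2 2
  have e10 := e 1 0
  have e11 := e 1 1
  have e00 := e 0 0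
  have e02 := e 0 2
  simp only [Matrix.mul_apply, Fin.sum_univ_three] at e20 e21 e22 e10 e11 e00 e02
  simp at e20 e21 e22 e10 e11 e00 e02
  refine ⟨⟨?_, ?_, ?_⟩, ⟨?_, ?_⟩, ?_, ?_⟩
  · exact mul_left_cancel₀ hs (by linear_combination e20)
  · exact mul_left_cancel₀ hs (by linear_combination e02)
  · exact mul_left_cancel₀ hq (by linear_combination e11)
  · exact mul_left_cancel₀ hs (by linear_combination e22)
  · exact mul_left_cancel₀ hs (by linear_combination e00)
  · linear_combination e21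
  · linear_combination e10

theorem rel_sq (s q : K) (hs : s ≠ 0) (hq : q ≠ 0) (B : Matrix (Fin 3) (Fin 3) K)
    (h : B.transpose * !![0, 0, s; 0, q, 0; s, 0, 0] * B = !![0, 0, s; 0, q, 0; s, 0, 0])
    (hdet : B.det = 1) (hb : B 1 1 ≠ 0) : (B 1 1 + 1) ^ 2 = 4 * (B 0 0 * B 2 2) := by
  obtain ⟨⟨h1, h2, h3⟩, ⟨h4, h5⟩, -⟩ := rel_adj s q hs hq B h hdet
  apply mul_left_cancel₀ hb
  have e1 : B 0 2 * B 2 0 * (1 + B 1 1) ^ 2 = (B 0 1 * B 1 0) * (B 1 2 * B 2 1) := by
    have e2 : B 0 2 * (1 + B 1 1) = B 0 1 * B 1 2 := by linear_combination -h4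
    have e3 : B 2 0 * (1 + B 1 1) = B 1 0 * B 2 1 := by linear_combination -h5
    calc B 0 2 * B 2 0 * (1 + B 1 1) ^ 2 = (B 0 2 * (1 + B 1 1)) * (B 2 0 * (1 + B 1 1)) := by ring
      _ = _ := by rw [e2, e3]; ring
  have e2 : B 0 1 * B 1 0 = B 0 0 * (B 1 1 - 1) := by linear_combination -h2
  have e3 : B 1 2 * B 2 1 = B 2 2 * (B 1 1 - 1) := by linear_combination -h1
  have e4 : B 0 2 * B 2 0 = B 0 0 * B 2 2 - B 1 1 := by linear_combination -h3
  rw [e2, e3, e4] at e1
  linear_combination -e1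

theorem rel_line (h2 : (2 : K) ≠ 0) (s q : K) (hs : s ≠ 0) (hq : q ≠ 0)
    (B : Matrix (Fin 3) (Fin 3) K)
    (h : B.transpose * !![0, 0, s; 0, q, 0; s, 0, 0] * B = !![0, 0, s; 0, q, 0; s, 0, 0])
    (hdet : B.det = 1) (hb : B 1 1 = 1) :
    (B 1 2 = 0 ∧ B 0 2 = 0) ∨ (B 1 0 = 0 ∧ B 2 0 = 0) := by
  obtain ⟨⟨h1, h2', h3⟩, ⟨h4, h5⟩, h6, h7⟩ := rel_adj s q hs hq B h hdet
  rw [hb] at h1 h2' h3 h4 h5
  have e1 : B 0 1 * B 1 0 = 0 := by linear_combination -h2'
  have e2 : B 1 2 * B 2 1 = 0 := by linear_combination -h1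
  have e3 : 2 * B 0 2 = B 0 1 * B 1 2 := by linear_combination -h4
  have e4 : 2 * B 2 0 = B 1 0 * B 2 1 := by linear_combination -h5
  have e5 : q * B 1 2 = -(s * (B 0 1 * B 2 2)) := by
    apply mul_left_cancel₀ h2
    linear_combination (-2) * h6 + s * B 2 1 * e3 + s * B 0 1 * e2
  rcases mul_eq_zero.mp e1 with h | h
  · left
    have e6 : B 1 2 = 0 := by
      rw [h] at e5
      have : q * B 1 2 = 0 := by rw [e5]; ring
      exact (mul_eq_zero.mp this).resolve_left hq
    refine ⟨e6, ?_⟩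
    rw [e6, mul_zero] at e3
    exact (mul_eq_zero.mp e3).resolve_left h2
  · right
    refine ⟨h, ?_⟩
    rw [h, zero_mul] at e4
    exact (mul_eq_zero.mp e4).resolve_left h2

theorem det_sub_smul {R : Type} [CommRing R] (A : Matrix (Fin 3) (Fin 3) R) (z : R) :
    (A - z • (1 : Matrix (Fin 3) (Fin 3) R)).det =
      A.det - z * A.adjugate.trace + z ^ 2 * A.trace - z ^ 3 := by
  simp [Matrix.det_fin_three, Matrix.trace_fin_three, Matrix.adjugate_fin_three]
  ring

theorem trace_conj {R : Type} [CommRing R] [IsDomain R] {n : ℕ} (X Y P : Matrix (Fin n) (Fin n) R)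
    (hP : P.det ≠ 0) (h : X * P = P * Y) : X.trace = Y.trace := by
  apply mul_left_cancel₀ hP
  have h1 : (X * P * P.adjugate).trace = P.det * X.trace := by
    rw [Matrix.mul_assoc, Matrix.mul_adjugate, Matrix.mul_smul, Matrix.mul_one, Matrix.trace_smul,
      smul_eq_mul]
  have h2 : (P * Y * P.adjugate).trace = P.det * Y.trace := by
    rw [Matrix.trace_mul_comm, ← Matrix.mul_assoc, Matrix.adjugate_mul, Matrix.smul_mul,
      Matrix.one_mul, Matrix.trace_smul, smul_eq_mul]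
  rw [← h1, ← h2, h]

end Rel

variable {l : ℕ} [Fact l.Prime]

theorem two_unit_or (l : ℕ) [Fact l.Prime] : IsUnit (2 : ℤ_[l]) ∨ Prime (2 : ℤ_[l]) ∧ l = 2 := by
  have hl : l.Prime := Fact.out
  rcases eq_or_ne l 2 with h2 | h2
  · right
    subst h2
    refine ⟨?_, rfl⟩
    exact_mod_cast PadicInt.prime_p (p := 2)
  · left
    have h3 : ¬ (l : ℤ) ∣ 2 := by
      intro h4
      have h5 : l ∣ 2 := by exact_mod_cast h4
      exact h2 ((Nat.prime_dvd_prime_iff_eq hl Nat.prime_two).mp h5)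
    have h6 : ‖((2 : ℤ) : ℤ_[l])‖ = 1 := by
      by_contra h7
      have h8 : ‖((2 : ℤ) : ℤ_[l])‖ < 1 := lt_of_le_of_ne (PadicInt.norm_le_one _) h7
      exact h3 ((PadicInt.norm_int_lt_one_iff_dvd 2).mp h8)
    have := PadicInt.isUnit_iff.mpr h6
    exact_mod_cast this

theorem two_dvd_of_sq (a : ℤ_[l]) (h : (2 : ℤ_[l]) ∣ a ^ 2) : (2 : ℤ_[l]) ∣ a := by
  rcases two_unit_or l with h1 | ⟨h1, -⟩
  · exact h1.dvd
  · exact h1.dvd_of_dvd_pow h

theorem two_dvd_l : (2 : ℤ_[l]) ∣ (l : ℤ_[l]) := by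
  rcases two_unit_or l with h1 | ⟨-, h1⟩
  · exact h1.dvd
  · subst h1
    exact dvd_of_eq (by norm_num)

theorem sq_div (f v : ℤ_[l]) (hv : v ≠ 0) (h : IsSquare (f * v ^ 2)) : IsSquare f := by
  obtain ⟨w, hw⟩ := h
  have h1 : v ^ 2 ∣ w ^ 2 := ⟨f, by rw [pow_two w, ← hw]; ring⟩
  obtain ⟨m, rfl⟩ := (UniqueFactorizationMonoid.pow_dvd_pow_iff_dvd two_ne_zero).mp h1
  refine ⟨m, ?_⟩
  have h2 : v ^ 2 * f = v ^ 2 * (m * m) := by linear_combination hw
  exact mul_left_cancel₀ (pow_ne_zero 2 hv) h2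

theorem not_dvd_nat (K m : ℕ) (hm : m ≠ 0) (h : m < 2 ^ K) : ¬ (l : ℤ_[l]) ^ K ∣ (m : ℤ_[l]) := by
  intro h0
  have h1 : (l : ℤ_[l]) ^ K ∣ ((m : ℤ) : ℤ_[l]) := by exact_mod_cast h0
  rw [PadicInt.pow_p_dvd_int_iff] at h1
  have h2 : l ^ K ∣ m := by exact_mod_cast h1
  have h3 := Nat.le_of_dvd (Nat.pos_of_ne_zero hm) h2
  have h4 : 2 ^ K ≤ l ^ K := Nat.pow_le_pow_left (Fact.out : l.Prime).two_le K
  omega

/-- the stabilizer of a line -/
def Stab {Γ : Type} [Group Γ] {K : Type} [Field K] (ρ : Γ →* Matrix (Fin 3) (Fin 3) K)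
    (v : Fin 3 → K) (hv : v ≠ 0) : Subgroup Γ where
  carrier := {g | ∃ c : K, (ρ g).mulVec v = c • v}
  one_mem' := ⟨1, by rw [map_one, Matrix.one_mulVec, one_smul]⟩
  mul_mem' := by
    rintro a b ⟨c, hc⟩ ⟨d, hd⟩
    exact ⟨d * c, by rw [map_mul, ← Matrix.mulVec_mulVec, hd, Matrix.mulVec_smul, hc, smul_smul]⟩
  inv_mem' := by
    rintro a ⟨c, hc⟩
    have h1 : (ρ a⁻¹).mulVec ((ρ a).mulVec v) = v := by
      rw [Matrix.mulVec_mulVec, ← map_mul, inv_mul_cancel, map_one, Matrix.one_mulVec]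
    rw [hc, Matrix.mulVec_smul] at h1
    have hc0 : c ≠ 0 := by
      rintro rfl
      rw [zero_smul] at h1
      exact hv h1.symm
    refine ⟨c⁻¹, ?_⟩
    apply smul_right_injective _ hc0
    change c • (ρ a⁻¹).mulVec v = c • (c⁻¹ • v)
    rw [h1, smul_smul, mul_inv_cancel₀ hc0, one_smul]

theorem mem_Stab {Γ : Type} [Group Γ] {K : Type} [Field K] (ρ : Γ →* Matrix (Fin 3) (Fin 3) K)
    (v : Fin 3 → K) (hv : v ≠ 0) (g : Γ) : g ∈ Stab ρ v hv ↔ ∃ c : K, (ρ g).mulVec v = c • v :=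
  Iff.rfl

theorem line_of {Γ : Type} [Group Γ] {K : Type} [Field K] (ρ : Γ →* Matrix (Fin 3) (Fin 3) K)
    (v : Fin 3 → K) (hv : v ≠ 0) (H : Subgroup Γ) (hH : H ≤ Stab ρ v hv) :
    ∃ (B : Matrix (Fin 3) (Fin 1) K) (A : H → Matrix (Fin 1) (Fin 1) K),
      IsSub (ρ.comp H.subtype) B A := by
  obtain ⟨i, hi⟩ : ∃ i, v i ≠ 0 := by
    by_contra hcon
    push Not at hcon
    exact hv (funext hcon)
  have key : ∀ h : H, ∃ c : K, (ρ h).mulVec v = c • v := fun h => hH h.2
  choose c hc using key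
  refine ⟨Matrix.of fun a _ => v a, fun h => Matrix.of fun _ _ => c h,
    ⟨Matrix.of fun _ b => if b = i then (v i)⁻¹ else 0, ?_⟩, ?_⟩
  · ext a b
    rw [Matrix.mul_apply]
    have : (1 : Matrix (Fin 1) (Fin 1) K) a b = 1 := by
      rw [Subsingleton.elim a b, Matrix.one_apply_eq]
    rw [this]
    simp [hi]
  · intro h
    ext a b
    have h1 := congrFun (hc h) a
    rw [Matrix.mul_apply, Matrix.mul_apply]
    simp only [Matrix.of_apply, Finset.univ_unique, Finset.sum_singleton]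
    simp only [Matrix.mulVec, dotProduct, Pi.smul_apply, smul_eq_mul] at h1
    rw [MonoidHom.comp_apply, Subgroup.coe_subtype, h1]
    ring

/-- the degenerate case -/
theorem go3_deg {Γ : Type} [Group Γ] (ρ : Γ →* Matrix (Fin 3) (Fin 3) ℚ_[l])
    (ψ : Matrix (Fin 3) (Fin 3) ℚ_[l]) (hψ : ψ.det ≠ 0) (hs : ψ.transpose = ψ)
    (hf : ∀ g, (ρ g).transpose * ψ * ρ g = ψ) (hdet : ∀ g, (ρ g).det = 1)
    (G : Subgroup Γ) (htr : ∀ g ∈ G, (ρ g).trace = 3) :
    ∃ (v : Fin 3 → ℚ_[l]) (hv : v ≠ 0), G ≤ Stab ρ v hv := by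
  by_cases hcase : ∀ g ∈ G, ρ g = 1
  · refine ⟨fun _ => 1, fun h => one_ne_zero (congrFun h 0), fun g hg => ⟨1, ?_⟩⟩
    rw [hcase g hg, Matrix.one_mulVec, one_smul]
  · push Not at hcase
    obtain ⟨g, hg, hg1⟩ := hcase
    have h2 : (2 : ℚ_[l]) ≠ 0 := two_ne_zero
    have hadj : (ρ g).adjugate.trace = 3 := by
      rw [form_tr (ρ g) ψ hψ (hf g) (hdet g), htr g hg]
    have hn3 : (ρ g - 1) * (ρ g - 1) * (ρ g - 1) = 0 := by
      have h := CH3 (ρ g)
      rw [hadj, htr g hg, hdet g, one_smul] at h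
      have e : (ρ g - 1) * (ρ g - 1) * (ρ g - 1) =
          ρ g * ρ g * ρ g - (3 : ℚ_[l]) • (ρ g * ρ g) + (3 : ℚ_[l]) • ρ g - 1 := by
        simp only [sub_mul, mul_sub, one_mul, mul_one]
        have e3 : ∀ X : Matrix (Fin 3) (Fin 3) ℚ_[l], (3 : ℚ_[l]) • X = X + X + X := by
          intro X
          rw [show (3 : ℚ_[l]) = 1 + 1 + 1 by norm_num, add_smul, add_smul, one_smul]
        rw [e3, e3]
        abel
      rw [e, h]
      abel
    have hn2 : (ρ g - 1) * (ρ g - 1) ≠ 0 := by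
      intro h
      exact hg1 (unip h2 (ρ g) ψ hψ hs (hf g) (hdet g) h)
    obtain ⟨z, hz, hzz⟩ := deg3 (ρ g) ψ hψ hs (hf g) hn3 hn2
    refine ⟨z, hz, fun h hh => ?_⟩
    refine hzz (ρ h) (hf h) ?_
    have e : (ρ g - 1) * (ρ g - 1) * ρ h = ρ (g * g * h) - ρ (g * h) - ρ (g * h) + ρ h := by
      rw [map_mul, map_mul, map_mul]
      simp only [sub_mul, mul_sub, one_mul, mul_one]
      abel
    rw [e, Matrix.trace_add, Matrix.trace_sub, Matrix.trace_sub, htr _ (mul_mem (mul_mem hg hg) hh),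
      htr _ (mul_mem hg hh), htr _ hh]
    ring

/-- union of two stabilizers -/
theorem union_sub {Γ : Type} [Group Γ] (H S T : Subgroup Γ) (h : ∀ g ∈ H, g ∈ S ∨ g ∈ T) :
    H ≤ S ∨ H ≤ T := by
  by_contra hcon
  push Not at hcon
  obtain ⟨hS, hT⟩ := hcon
  obtain ⟨a, ha, haS⟩ := SetLike.not_le_iff_exists.mp hS
  obtain ⟨b, hb, hbT⟩ := SetLike.not_le_iff_exists.mp hT
  have haT : a ∈ T := (h a ha).resolve_left haS
  have hbS : b ∈ S := (h b hb).resolve_right hbT
  rcases h (a * b) (mul_mem ha hb) with h1 | h1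
  · exact haS ((Subgroup.mul_mem_cancel_right S hbS).mp h1)
  · exact hbT ((Subgroup.mul_mem_cancel_left T haT).mp h1)

/-- the matrix of eigenvectors -/
theorem eig3 (A : Matrix (Fin 3) (Fin 3) ℤ_[l]) (hdet : A.det = 1)
    (hadj : A.adjugate.trace = A.trace) (x y : ℤ_[l]) (hxy : x * y = 1)
    (ht : x + y = A.trace - 1) (hne : x ≠ y) (hx1 : x ≠ 1) (hy1 : y ≠ 1) :
    ∃ P : Matrix (Fin 3) (Fin 3) ℤ_[l], P.det ≠ 0 ∧ A * P = P * Matrix.diagonal ![x, 1, y] := by
  have key : ∀ z : ℤ_[l], (z = x ∨ z = 1 ∨ z = y) → ∃ v : Fin 3 → ℤ_[l], v ≠ 0 ∧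
      A.mulVec v = z • v := by
    intro z hz
    have hd : (A - z • (1 : Matrix (Fin 3) (Fin 3) ℤ_[l])).det = 0 := by
      rw [det_sub_smul, hdet, hadj]
      have htr : A.trace = x + y + 1 := by linear_combination -ht
      rw [htr]
      rcases hz with rfl | rfl | rfl
      · linear_combination (z - 1) * hxy
      · ring
      · linear_combination (z - 1) * hxy
    obtain ⟨v, hv0, hv⟩ := Matrix.exists_mulVec_eq_zero_iff.mpr hd
    refine ⟨v, hv0, ?_⟩
    rw [Matrix.sub_mulVec, Matrix.smul_mulVec, Matrix.one_mulVec, sub_eq_zero] at hv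
    exact hv
  obtain ⟨v0, h0, e0⟩ := key x (Or.inl rfl)
  obtain ⟨v1, h1, e1⟩ := key 1 (Or.inr (Or.inl rfl))
  obtain ⟨v2, h2, e2⟩ := key y (Or.inr (Or.inr rfl))
  refine ⟨Matrix.of fun i j => (![v0, v1, v2] j) i, ?_, ?_⟩
  · intro hdetP
    obtain ⟨w, hw0, hw⟩ := Matrix.exists_mulVec_eq_zero_iff.mpr hdetP
    have hsum : w 0 • v0 + w 1 • v1 + w 2 • v2 = 0 := by
      funext i
      have := congrFun hw i
      rw [Matrix.mulVec, dotProduct, Fin.sum_univ_three] at this
      simp at this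
      simp only [Pi.add_apply, Pi.smul_apply, smul_eq_mul, Pi.zero_apply]
      linear_combination this
    have hsum1 : (w 0 * x) • v0 + w 1 • v1 + (w 2 * y) • v2 = 0 := by
      have := congrArg A.mulVec hsum
      rw [Matrix.mulVec_add, Matrix.mulVec_add, Matrix.mulVec_smul, Matrix.mulVec_smul,
        Matrix.mulVec_smul, e0, e1, e2, Matrix.mulVec_zero] at this
      simp only [smul_smul, mul_one] at this
      exact this
    have hsum2 : (w 0 * x * x) • v0 + w 1 • v1 + (w 2 * y * y) • v2 = 0 := by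
      have := congrArg A.mulVec hsum1
      rw [Matrix.mulVec_add, Matrix.mulVec_add, Matrix.mulVec_smul, Matrix.mulVec_smul,
        Matrix.mulVec_smul, e0, e1, e2, Matrix.mulVec_zero] at this
      simp only [smul_smul, mul_one] at this
      exact this
    have f0 : (w 0 * ((x - 1) * (x - y))) • v0 = 0 := by
      funext i
      have a0 := congrFun hsum i
      have a1 := congrFun hsum1 i
      have a2 := congrFun hsum2 i
      simp only [Pi.add_apply, Pi.smul_apply, smul_eq_mul, Pi.zero_apply] at a0 a1 a2 ⊢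
      linear_combination a2 - (1 + y) * a1 + y * a0
    have f2 : (w 2 * ((y - 1) * (y - x))) • v2 = 0 := by
      funext i
      have a0 := congrFun hsum i
      have a1 := congrFun hsum1 i
      have a2 := congrFun hsum2 i
      simp only [Pi.add_apply, Pi.smul_apply, smul_eq_mul, Pi.zero_apply] at a0 a1 a2 ⊢
      linear_combination a2 - (1 + x) * a1 + x * a0
    have w0 : w 0 = 0 := by
      rcases smul_eq_zero.mp f0 with h | h
      · rcases mul_eq_zero.mp h with h | h
        · exact h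
        · rcases mul_eq_zero.mp h with h | h
          · exact absurd (sub_eq_zero.mp h) hx1
          · exact absurd (sub_eq_zero.mp h) hne
      · exact absurd h h0
    have w2 : w 2 = 0 := by
      rcases smul_eq_zero.mp f2 with h | h
      · rcases mul_eq_zero.mp h with h | h
        · exact h
        · rcases mul_eq_zero.mp h with h | h
          · exact absurd (sub_eq_zero.mp h) hy1
          · exact absurd (sub_eq_zero.mp h) (Ne.symm hne)
      · exact absurd h h2
    rw [w0, w2, zero_smul, zero_smul, zero_add, add_zero] at hsum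
    have w1 : w 1 = 0 := (smul_eq_zero.mp hsum).resolve_right h1
    apply hw0
    funext i
    fin_cases i
    · exact w0
    · exact w1
    · exact w2
  · ext i j
    rw [Matrix.mul_diagonal, Matrix.mul_apply]
    have e : ∀ v : Fin 3 → ℤ_[l], ∑ k, A i k * v k = A.mulVec v i := fun v => rfl
    fin_cases j
    · change ∑ k, A i k * v0 k = v0 i * x
      rw [e, e0]
      simp [mul_comm]
    · change ∑ k, A i k * v1 k = v1 i * 1
      rw [e, e1]
      simp
    · change ∑ k, A i k * v2 k = v2 i * y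
      rw [e, e2]
      simp [mul_comm]

/-- the form in a basis of eigenvectors -/
theorem phi_form (Φ : Matrix (Fin 3) (Fin 3) ℚ_[l]) (hs : Φ.transpose = Φ) (x y : ℚ_[l])
    (hxy : x * y = 1) (hne : x ≠ y) (hx1 : x ≠ 1) (hy1 : y ≠ 1)
    (h : Matrix.diagonal ![x, 1, y] * Φ * Matrix.diagonal ![x, 1, y] = Φ) :
    Φ = !![0, 0, Φ 0 2; 0, Φ 1 1, 0; Φ 0 2, 0, 0] := by
  have hsym : ∀ i j, Φ i j = Φ j i := by
    intro i j
    have := congrFun (congrFun hs j) i
    simpa using this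
  have e : ∀ i j, (![x, 1, y] i * ![x, 1, y] j - 1) * Φ i j = 0 := by
    intro i j
    have := congrFun (congrFun h i) j
    rw [Matrix.mul_diagonal, Matrix.diagonal_mul] at this
    linear_combination this
  have hxx : x * x - 1 ≠ 0 := by
    intro h
    apply hne
    have : x * x = x * y := by rw [hxy]; linear_combination h
    have hx0 : x ≠ 0 := left_ne_zero_of_mul_eq_one hxy
    exact mul_left_cancel₀ hx0 this
  have hyy : y * y - 1 ≠ 0 := by
    intro h
    apply hne
    have : y * y = y * x := by rw [mul_comm y x, hxy]; linear_combination h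
    have hy0 : y ≠ 0 := right_ne_zero_of_mul_eq_one hxy
    exact (mul_left_cancel₀ hy0 this).symm
  have h00 : Φ 0 0 = 0 := by
    have := e 0 0
    simp only [Matrix.cons_val_zero] at this
    exact (mul_eq_zero.mp this).resolve_left hxx
  have h22 : Φ 2 2 = 0 := by
    have := e 2 2
    have e' : (![x, 1, y] : Fin 3 → ℚ_[l]) 2 = y := rfl
    rw [e'] at this
    exact (mul_eq_zero.mp this).resolve_left hyy
  have h01 : Φ 0 1 = 0 := by
    have := e 0 1
    have e' : (![x, 1, y] : Fin 3 → ℚ_[l]) 0 * (![x, 1, y] : Fin 3 → ℚ_[l]) 1 = x := by simp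
    rw [e'] at this
    exact (mul_eq_zero.mp this).resolve_left (sub_ne_zero.mpr hx1)
  have h12 : Φ 1 2 = 0 := by
    have := e 1 2
    have e' : (![x, 1, y] : Fin 3 → ℚ_[l]) 1 * (![x, 1, y] : Fin 3 → ℚ_[l]) 2 = y := by
      simp
    rw [e'] at this
    exact (mul_eq_zero.mp this).resolve_left (sub_ne_zero.mpr hy1)
  ext i j
  fin_cases i <;> fin_cases j <;>
    simp [h00, h22, h01, h12, hsym 1 0, hsym 2 0, hsym 2 1]

theorem st_GO3 : REC.ST_GO3 := by
  intro l _ Γ _ _ _ r hr ψ hform hdet N hN hsq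
  obtain ⟨hψ, hs, hf'⟩ := hform
  have hl : l.Prime := Fact.out
  set c : ℤ_[l] →+* ℚ_[l] := algebraMap ℤ_[l] ℚ_[l] with hcdef
  have hc : Function.Injective c := FaithfulSMul.algebraMap_injective ℤ_[l] ℚ_[l]
  have hrat : ∀ g, rat r g = c.mapMatrix (r g : Matrix (Fin 3) (Fin 3) ℤ_[l]) := fun g => rfl
  have hf : ∀ g, (rat r g).transpose * ψ * rat r g = ψ := by
    intro g
    rw [hf' g, one_smul]
  have hdetQ : ∀ g, (rat r g).det = 1 := by
    intro g
    rw [hrat, ← RingHom.map_det, hdet g, map_one]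
  have htrQ : ∀ X : Matrix (Fin 3) (Fin 3) ℤ_[l], (c.mapMatrix X).trace = c X.trace := by
    intro X
    simp [Matrix.trace_fin_three]
  have hadj : ∀ g, (r g : Matrix (Fin 3) (Fin 3) ℤ_[l]).adjugate.trace =
      (r g : Matrix (Fin 3) (Fin 3) ℤ_[l]).trace := by
    intro g
    have h1 := form_tr (rat r g) ψ hψ (hf g) (hdetQ g)
    rw [hrat, ← RingHom.map_adjugate, htrQ, htrQ] at h1
    exact hc h1
  -- the open subgroup
  obtain ⟨K, hK4, hKN⟩ : ∃ K : ℕ, 4 ≤ K ∧ ¬ (l : ℤ_[l]) ^ K ∣ (N : ℤ_[l]) := by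
    refine ⟨N + 4, by omega, not_dvd_nat _ _ (by omega) ?_⟩
    exact (Nat.lt_two_pow_self).trans (Nat.pow_lt_pow_right (by norm_num) (by omega))
  obtain ⟨G₁, hG₁, hG₁m⟩ := gl_open r hr K
  have htr3 : ∀ g ∈ G₁, (l : ℤ_[l]) ^ K ∣ (r g : Matrix (Fin 3) (Fin 3) ℤ_[l]).trace - 3 := by
    intro g hg
    have h1 := (hG₁m g).mp hg
    have e : (r g : Matrix (Fin 3) (Fin 3) ℤ_[l]).trace - 3 =
        ((r g : Matrix (Fin 3) (Fin 3) ℤ_[l]) - 1) 0 0 + ((r g : Matrix (Fin 3) (Fin 3) ℤ_[l]) - 1) 1 1 +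
          ((r g : Matrix (Fin 3) (Fin 3) ℤ_[l]) - 1) 2 2 := by
      simp [Matrix.trace_fin_three]
      ring
    rw [e]
    exact dvd_add (dvd_add (h1 0 0) (h1 1 1)) (h1 2 2)
  have hsq1 : ∀ g ∈ G₁, IsSquare (((r g : Matrix (Fin 3) (Fin 3) ℤ_[l]).trace - 3) *
      ((r g : Matrix (Fin 3) (Fin 3) ℤ_[l]).trace + 1)) := by
    intro g hg
    have h1 := hsq g
    rw [f_pow _ (hdet g) (hadj g)] at h1
    refine sq_div _ _ ?_ h1
    intro hU
    have h2 := (U_dvd ((r g : Matrix (Fin 3) (Fin 3) ℤ_[l]).trace - 1) N).1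
    rw [hU, zero_sub, dvd_neg] at h2
    have e : (r g : Matrix (Fin 3) (Fin 3) ℤ_[l]).trace - 1 - 2 =
      (r g : Matrix (Fin 3) (Fin 3) ℤ_[l]).trace - 3 := by ring
    rw [e] at h2
    exact hKN ((htr3 g hg).trans h2)
  have h4 : ¬ (l : ℤ_[l]) ^ K ∣ ((4 : ℕ) : ℤ_[l]) := by
    refine not_dvd_nat _ _ (by norm_num) ?_
    calc 4 < 2 ^ 4 := by norm_num
      _ ≤ 2 ^ K := Nat.pow_le_pow_right (by norm_num) hK4
  by_cases hcase : ∀ g ∈ G₁, ((r g : Matrix (Fin 3) (Fin 3) ℤ_[l]).trace - 3) *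
      ((r g : Matrix (Fin 3) (Fin 3) ℤ_[l]).trace + 1) = 0
  · -- the degenerate case
    have htr : ∀ g ∈ G₁, (rat r g).trace = 3 := by
      intro g hg
      rw [hrat, htrQ]
      rcases mul_eq_zero.mp (hcase g hg) with h | h
      · rw [sub_eq_zero.mp h]
        exact map_ofNat c 3
      · exfalso
        apply h4
        have h1 := htr3 g hg
        have e : (r g : Matrix (Fin 3) (Fin 3) ℤ_[l]).trace - 3 = -((4 : ℕ) : ℤ_[l]) := by
          push_cast
          linear_combination h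
        rw [e, dvd_neg] at h1
        exact h1
    obtain ⟨v, hv, hGv⟩ := go3_deg (rat r) ψ hψ hs hf hdetQ G₁ htr
    exact ⟨G₁, hG₁, line_of (rat r) v hv G₁ hGv⟩
  · push Not at hcase
    obtain ⟨g, hg, hgd⟩ := hcase
    set A : Matrix (Fin 3) (Fin 3) ℤ_[l] := (r g : Matrix (Fin 3) (Fin 3) ℤ_[l]) with hA
    obtain ⟨d, hd⟩ := hsq1 g hg
    obtain ⟨t, ht⟩ : ∃ t, t = A.trace - 1 := ⟨_, rfl⟩
    have htd : t ^ 2 - 4 = d * d := by rw [← hd, ht]; ring
    have ht2 : (l : ℤ_[l]) ^ K ∣ t - 2 := by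
      have : t - 2 = A.trace - 3 := by rw [ht]; ring
      rw [this]
      exact htr3 g hg
    have hd0 : d ≠ 0 := by
      rintro rfl
      exact hgd (by rw [hd]; ring)
    have h2ne : (2 : ℤ_[l]) ≠ 0 := two_ne_zero
    obtain ⟨x, hx⟩ : ∃ x : ℤ_[l], t + d = 2 * x := by
      refine two_dvd_of_sq _ ⟨t ^ 2 + t * d - 2, ?_⟩
      linear_combination -htd
    obtain ⟨y, hy⟩ : ∃ y : ℤ_[l], y = x - d := ⟨_, rfl⟩
    have hxy1 : x + y = t := by
      apply mul_left_cancel₀ h2ne
      rw [hy]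
      linear_combination -2 * hx
    have hxy : x * y = 1 := by
      have h4' : (4 : ℤ_[l]) ≠ 0 := by norm_num
      apply mul_left_cancel₀ h4'
      have h5 : 2 * y = t - d := by rw [hy]; linear_combination -hx
      have h6 : 4 * (x * y) = (2 * x) * (2 * y) := by ring
      rw [h6, h5, ← hx]
      linear_combination htd
    have hne : x ≠ y := by
      intro h
      apply hd0
      have : x - y = d := by rw [hy]; ring
      rw [← this, h, sub_self]
    have hx1 : x ≠ 1 := by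
      rintro rfl
      rw [one_mul] at hxy
      exact hne hxy.symm
    have hy1 : y ≠ 1 := by
      rintro h
      rw [h, mul_one] at hxy
      exact hne (hxy.trans h.symm)
    obtain ⟨k, u, hk2, hu, hxu⟩ := gl_val (x - 1) (sub_ne_zero.mpr hx1) 2 (by
      have e : (x - 1) ^ 2 = (t - 2) * x := by
        rw [← hxy1]
        linear_combination -hxy
      rw [e]
      exact ((pow_dvd_pow _ hK4).trans ht2).mul_right _)
    have hkl : k + 2 ≤ l * k := by
      have := hl.two_le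
      nlinarith
    have hk0 : k ≠ 0 := by omega
    obtain ⟨P, hP, hAP⟩ := eig3 A (hdet g) (hadj g) x y hxy (by rw [hxy1, ht]) hne hx1 hy1
    obtain ⟨c₀, hc₀⟩ := gl_base P hP
    obtain ⟨G₂, hG₂, hG₂m⟩ := gl_open r hr (c₀ + (2 * k + 1))
    -- the form
    set PQ : Matrix (Fin 3) (Fin 3) ℚ_[l] := c.mapMatrix P with hPQ
    have hPQd : PQ.det ≠ 0 := by
      rw [hPQ, ← RingHom.map_det]
      exact fun h => hP (hc (by rw [h, map_zero]))
    obtain ⟨Φ, hΦ⟩ : ∃ Φ, Φ = PQ.transpose * ψ * PQ := ⟨_, rfl⟩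
    have hΦs : Φ.transpose = Φ := by
      rw [hΦ, Matrix.transpose_mul, Matrix.transpose_mul, Matrix.transpose_transpose, hs,
        Matrix.mul_assoc]
    have hΦd : Φ.det ≠ 0 := by
      rw [hΦ, Matrix.det_mul, Matrix.det_mul, Matrix.det_transpose]
      exact mul_ne_zero (mul_ne_zero hPQd hψ) hPQd
    have hconj : ∀ X Y : Matrix (Fin 3) (Fin 3) ℚ_[l], X * PQ = PQ * Y →
        X.transpose * ψ * X = ψ → Y.transpose * Φ * Y = Φ := by
      intro X Y h1 h2
      rw [hΦ]
      calc Y.transpose * (PQ.transpose * ψ * PQ) * Y =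
          (PQ * Y).transpose * ψ * (PQ * Y) := by
            rw [Matrix.transpose_mul]
            simp only [Matrix.mul_assoc]
        _ = (X * PQ).transpose * ψ * (X * PQ) := by rw [h1]
        _ = PQ.transpose * (X.transpose * ψ * X) * PQ := by
            rw [Matrix.transpose_mul]
            simp only [Matrix.mul_assoc]
        _ = PQ.transpose * ψ * PQ := by rw [h2]
    have hAPQ : rat r g * PQ = PQ * Matrix.diagonal ![c x, 1, c y] := by
      have h1 := congrArg c.mapMatrix hAP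
      rw [map_mul, map_mul] at h1
      rw [hrat, hPQ, h1]
      congr 1
      ext i j
      fin_cases i <;> fin_cases j <;> simp [Matrix.diagonal]
    have hDf := hconj _ _ hAPQ (hf g)
    rw [Matrix.diagonal_transpose] at hDf
    have hΦf := phi_form Φ hΦs (c x) (c y) (by rw [← map_mul, hxy, map_one])
      (fun h => hne (hc h)) (fun h => hx1 (hc (by rw [h, map_one])))
      (fun h => hy1 (hc (by rw [h, map_one]))) hDf
    have hΦ02 : Φ 0 2 ≠ 0 := by
      intro h0
      apply hΦd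
      rw [hΦf, h0, Matrix.det_fin_three]
      simp
    have hΦ11 : Φ 1 1 ≠ 0 := by
      intro h0
      apply hΦd
      rw [hΦf, h0, Matrix.det_fin_three]
      simp
    -- the elements of H
    have key : ∀ h ∈ G₁ ⊓ G₂, ∃ B : Matrix (Fin 3) (Fin 3) ℤ_[l],
        (r h : Matrix (Fin 3) (Fin 3) ℤ_[l]) * P = P * B ∧
          ((B 1 2 = 0 ∧ B 0 2 = 0) ∨ (B 1 0 = 0 ∧ B 2 0 = 0)) := by
      intro h hh
      obtain ⟨B, hB1, hB2⟩ := hc₀ (2 * k + 1) _ ((hG₂m h).mp hh.2)
      refine ⟨B, hB1, ?_⟩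
      have hBd : B.det = 1 := by
        have h1 := congrArg Matrix.det hB1
        rw [Matrix.det_mul, Matrix.det_mul, hdet h, one_mul] at h1
        have h2 : P.det * B.det = P.det * 1 := by rw [← h1, mul_one]
        exact mul_left_cancel₀ hP h2
      set BQ : Matrix (Fin 3) (Fin 3) ℚ_[l] := c.mapMatrix B with hBQ
      have hBQe : ∀ i j, BQ i j = c (B i j) := fun i j => rfl
      have hBQd : BQ.det = 1 := by rw [hBQ, ← RingHom.map_det, hBd, map_one]
      have hBPQ : rat r h * PQ = PQ * BQ := by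
        rw [hrat, hPQ, hBQ, ← map_mul, hB1, map_mul]
      have hBf := hconj _ _ hBPQ (hf h)
      rw [hΦf] at hBf
      have h00 : (l : ℤ_[l]) ^ (2 * k + 1) ∣ B 0 0 - 1 := by simpa using hB2 0 0
      have h11 : (l : ℤ_[l]) ^ (2 * k + 1) ∣ B 1 1 - 1 := by simpa using hB2 1 1
      have h22 : (l : ℤ_[l]) ^ (2 * k + 1) ∣ B 2 2 - 1 := by simpa using hB2 2 2
      have u00 : IsUnit (B 0 0) := gl_unit_of_dvd (k := 2 * k + 1) (by omega) h00
      have u11 : IsUnit (B 1 1) := gl_unit_of_dvd (k := 2 * k + 1) (by omega) h11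
      have u22 : IsUnit (B 2 2) := gl_unit_of_dvd (k := 2 * k + 1) (by omega) h22
      have hrel : (B 1 1 + 1) ^ 2 = 4 * (B 0 0 * B 2 2) := by
        have h1 := rel_sq (Φ 0 2) (Φ 1 1) hΦ02 hΦ11 BQ hBf hBQd (by
          rw [hBQe]
          exact fun h => u11.ne_zero (hc (by rw [h, map_zero])))
        rw [hBQe, hBQe, hBQe] at h1
        apply hc
        rw [map_pow, map_add, map_one, map_mul, map_mul, h1, show c 4 = 4 from map_ofNat c 4]
      -- Q
      obtain ⟨β, hβ⟩ := h11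
      obtain ⟨m, hm⟩ := two_dvd_l (l := l)
      obtain ⟨Q, hQ⟩ : ∃ Q : ℤ_[l], Q = (l : ℤ_[l]) ^ (2 * k) * (m * β) := ⟨_, rfl⟩
      have hbQ : B 1 1 = 1 + 2 * Q := by
        rw [hQ]
        have : B 1 1 - 1 = (l : ℤ_[l]) ^ (2 * k) * (l : ℤ_[l]) * β := by rw [hβ, pow_succ]
        linear_combination this + (l : ℤ_[l]) ^ (2 * k) * β * hm
      have hQd : (l : ℤ_[l]) ^ (2 * k) ∣ Q := ⟨_, hQ⟩
      have hrel2 : (Q + 1) ^ 2 = B 0 0 * B 2 2 := by
        have h4' : (4 : ℤ_[l]) ≠ 0 := by norm_num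
        apply mul_left_cancel₀ h4'
        rw [hbQ] at hrel
        linear_combination hrel
      have hQ0 : Q = 0 := by
        refine gl_core k hkl x u (B 0 0) (Q + 1) Q hu (by linear_combination hxu)
          ((pow_dvd_pow _ (by omega)).trans h00) ?_ hQd ?_
        · rw [add_sub_cancel_right]
          exact (pow_dvd_pow _ (by omega)).trans hQd
        · intro n
          have hmem : g ^ n * h ∈ G₁ := mul_mem (pow_mem hg n) hh.1
          have h1 := hsq1 _ hmem
          have htrn : (r (g ^ n * h) : Matrix (Fin 3) (Fin 3) ℤ_[l]).trace =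
              x ^ n * B 0 0 + B 1 1 + y ^ n * B 2 2 := by
            have hAn : ∀ n : ℕ, A ^ n * P = P * Matrix.diagonal ![x ^ n, 1, y ^ n] := by
              intro n
              induction n with
              | zero =>
                have : Matrix.diagonal ![x ^ 0, 1, y ^ 0] = (1 : Matrix (Fin 3) (Fin 3) ℤ_[l]) := by
                  ext i j
                  fin_cases i <;> fin_cases j <;> simp [Matrix.diagonal]
                rw [this, pow_zero, Matrix.one_mul, Matrix.mul_one]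
              | succ n ih =>
                rw [pow_succ, Matrix.mul_assoc, hAP, ← Matrix.mul_assoc, ih, Matrix.mul_assoc]
                congr 1
                rw [Matrix.diagonal_mul_diagonal]
                congr 1
                funext i
                fin_cases i <;> simp [pow_succ]
            have e1 : (r (g ^ n * h) : Matrix (Fin 3) (Fin 3) ℤ_[l]) * P =
                P * (Matrix.diagonal ![x ^ n, 1, y ^ n] * B) := by
              rw [map_mul, map_pow, Units.val_mul, Units.val_pow_eq_pow_val, Matrix.mul_assoc, hB1,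
                ← Matrix.mul_assoc, hAn, Matrix.mul_assoc]
            rw [trace_conj _ _ P hP e1, Matrix.trace_fin_three]
            simp [Matrix.diagonal_mul]
          rw [htrn] at h1
          obtain ⟨w, hw⟩ := h1
          have hxyn : x ^ n * y ^ n = 1 := by rw [← mul_pow, hxy, one_pow]
          -- a² x^(2n) f = E F²
          refine sq_div _ (x ^ n * B 0 0 + (Q + 1)) ?_ ?_
          · intro h0
            have hx1' : (l : ℤ_[l]) ^ 2 ∣ x ^ n - 1 := by
              have h2 : x - 1 ∣ x ^ n - 1 := by simpa using sub_dvd_pow_sub_pow x 1 n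
              have h3 : (l : ℤ_[l]) ^ 2 ∣ x - 1 := by
                rw [hxu]
                exact (pow_dvd_pow _ hk2).mul_right _
              exact h3.trans h2
            have h2 : (l : ℤ_[l]) ^ 2 ∣ ((2 : ℕ) : ℤ_[l]) := by
              have e : ((2 : ℕ) : ℤ_[l]) = -((x ^ n - 1) * B 0 0 + (B 0 0 - 1) + Q) := by
                push_cast
                linear_combination h0
              rw [e, dvd_neg]
              exact dvd_add (dvd_add (hx1'.mul_right _) ((pow_dvd_pow _ (by omega)).trans h00))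
                ((pow_dvd_pow _ (by omega)).trans hQd)
            exact not_dvd_nat 2 2 (by norm_num) (by norm_num) h2
          · refine ⟨B 0 0 * x ^ n * w, ?_⟩
            have e : B 0 0 * x ^ n * w * (B 0 0 * x ^ n * w) = (B 0 0 * x ^ n) ^ 2 * (w * w) := by
              ring
            rw [e, ← hw, hbQ]
            have e1 : (x ^ n * B 0 0 - (Q + 1)) ^ 2 + 4 * (x ^ n * B 0 0 * Q) =
                B 0 0 * (B 0 0 * x ^ n * x ^ n + (2 * Q - 2) * x ^ n + B 2 2) := by
              linear_combination hrel2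
            have e2 : (x ^ n * B 0 0 + (Q + 1)) ^ 2 =
                B 0 0 * (B 0 0 * x ^ n * x ^ n + (2 * Q + 2) * x ^ n + B 2 2) := by
              linear_combination hrel2
            have e3 : x ^ n * (x ^ n * B 0 0 + (1 + 2 * Q) + y ^ n * B 2 2 - 3) =
                B 0 0 * x ^ n * x ^ n + (2 * Q - 2) * x ^ n + B 2 2 := by
              linear_combination B 2 2 * hxyn
            have e4 : x ^ n * (x ^ n * B 0 0 + (1 + 2 * Q) + y ^ n * B 2 2 + 1) =
                B 0 0 * x ^ n * x ^ n + (2 * Q + 2) * x ^ n + B 2 2 := by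
              linear_combination B 2 2 * hxyn
            rw [e1, e2, ← e3, ← e4]
            ring
      have hb1 : B 1 1 = 1 := by rw [hbQ, hQ0]; ring
      have hfin := rel_line two_ne_zero (Φ 0 2) (Φ 1 1) hΦ02 hΦ11 BQ hBf hBQd (by
        rw [hBQe, hb1, map_one])
      simp only [hBQe] at hfin
      have hz : ∀ a : ℤ_[l], c a = 0 → a = 0 := fun a ha => hc (by rw [ha, map_zero])
      rcases hfin with ⟨p1, p2⟩ | ⟨p1, p2⟩
      · exact Or.inl ⟨hz _ p1, hz _ p2⟩
      · exact Or.inr ⟨hz _ p1, hz _ p2⟩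
    -- the two lines
    have hcol : ∀ j, (fun i => PQ i j) ≠ 0 := by
      intro j h
      apply hPQd
      exact Matrix.det_eq_zero_of_column_eq_zero j (fun i => congrFun h i)
    have hun := union_sub (G₁ ⊓ G₂) (Stab (rat r) (fun i => PQ i 0) (hcol 0))
      (Stab (rat r) (fun i => PQ i 2) (hcol 2)) (by
        intro h hh
        obtain ⟨B, hB1, hB⟩ := key h hh
        have hBPQ : rat r h * PQ = PQ * c.mapMatrix B := by
          rw [hrat, hPQ, ← map_mul, hB1, map_mul]
        rcases hB with ⟨p1, p2⟩ | ⟨p1, p2⟩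
        · right
          refine ⟨c (B 2 2), ?_⟩
          funext i
          have h1 := congrFun (congrFun hBPQ i) 2
          rw [Matrix.mul_apply, Matrix.mul_apply, Fin.sum_univ_three (fun j => PQ i j *
            (c.mapMatrix B) j 2)] at h1
          have q1 : (c.mapMatrix B) 0 2 = 0 := by
            change c (B 0 2) = 0
            rw [p2, map_zero]
          have q2 : (c.mapMatrix B) 1 2 = 0 := by
            change c (B 1 2) = 0
            rw [p1, map_zero]
          rw [q1, q2, mul_zero, mul_zero, zero_add, zero_add] at h1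
          simp only [Matrix.mulVec, dotProduct, Pi.smul_apply, smul_eq_mul]
          rw [h1]
          exact mul_comm _ _
        · left
          refine ⟨c (B 0 0), ?_⟩
          funext i
          have h1 := congrFun (congrFun hBPQ i) 0
          rw [Matrix.mul_apply, Matrix.mul_apply, Fin.sum_univ_three (fun j => PQ i j *
            (c.mapMatrix B) j 0)] at h1
          have q1 : (c.mapMatrix B) 1 0 = 0 := by
            change c (B 1 0) = 0
            rw [p1, map_zero]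
          have q2 : (c.mapMatrix B) 2 0 = 0 := by
            change c (B 2 0) = 0
            rw [p2, map_zero]
          rw [q1, q2, mul_zero, mul_zero, add_zero, add_zero] at h1
          simp only [Matrix.mulVec, dotProduct, Pi.smul_apply, smul_eq_mul]
          rw [h1]
          exact mul_comm _ _)
    have hop : IsOpen ((G₁ ⊓ G₂ : Subgroup Γ) : Set Γ) := by
      rw [Subgroup.coe_inf]
      exact hG₁.inter hG₂
    rcases hun with h | h
    · exact ⟨_, hop, line_of (rat r) _ _ _ h⟩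
    · exact ⟨_, hop, line_of (rat r) _ _ _ h⟩

end Pool.Agent.Helper32.REC
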